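import Pool.Agent.T9h84.SE.Count

set_option autoImplicit false

open Finset Function

namespace Pool.Agent.T9h84.SE

variable {t : ℕ}

/-- The constant of the counting argument. -/
noncomputable def c0 (t : ℕ) (ℓ : Fin t → ℕ) : ℝ :=
  ∏ i, ((ℓ i : ℝ) * ((ℓ i - 1).factorial * (16 * t) ^ (ℓ i - 1)))

open Classical in
theorem sum_boxes_le {Y : Fin t → Type} [∀ i, Fintype (Y i)] (ℓ : Fin t → ℕ) {X : Type}
    [Fintype X] (T : X → Finset (∀ i, Y i)) (u : ℕ)
    (hu : ∀ A : ∀ i, Finset (Y i), (∀ i, (A i).card = ℓ i) →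
      (univ.filter fun x => Fintype.piFinset A ⊆ T x).card ≤ u) :
    ∑ x, (boxes ℓ (T x)).card ≤ u * ∏ i, (Fintype.card (Y i)) ^ ℓ i := by
  calc ∑ x, (boxes ℓ (T x)).card
      = ∑ x, ∑ A ∈ (Fintype.piFinset fun i => powersetCard (ℓ i) (univ : Finset (Y i))),
          if Fintype.piFinset A ⊆ T x then 1 else 0 := by
        apply Finset.sum_congr rfl
        intro x _
        unfold boxes
        rw [card_filter]
    _ = ∑ A ∈ (Fintype.piFinset fun i => powersetCard (ℓ i) (univ : Finset (Y i))),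
          (univ.filter fun x => Fintype.piFinset A ⊆ T x).card := by
        rw [Finset.sum_comm]
        apply Finset.sum_congr rfl
        intro A _
        rw [card_filter]
    _ ≤ ∑ A ∈ (Fintype.piFinset fun i => powersetCard (ℓ i) (univ : Finset (Y i))), u := by
        apply Finset.sum_le_sum
        intro A hA
        rw [Fintype.mem_piFinset] at hA
        exact hu A fun i => (mem_powersetCard.mp (hA i)).2
    _ = u * ∏ i, (Fintype.card (Y i)).choose (ℓ i) := by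
        rw [sum_const, smul_eq_mul, Fintype.card_piFinset, mul_comm]
        simp
    _ ≤ u * ∏ i, (Fintype.card (Y i)) ^ ℓ i := by
        apply Nat.mul_le_mul_left
        apply Finset.prod_le_prod'
        intro i _
        exact Nat.choose_le_pow _ _

theorem choose_bound (t : ℕ) (ht : 1 ≤ t) (l : ℕ) (hl : 1 ≤ l) (D Nb : ℝ) (hN : 0 < Nb)
    (hD : 8 * t * l * Nb ≤ D) :
    (D / (16 * t * Nb)) ^ (l - 1) / ((l - 1).factorial : ℝ) ≤
      ((⌊D / (4 * t * Nb)⌋₊ - 1).choose (l - 1) : ℕ) := by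
  have ht' : (1 : ℝ) ≤ t := by exact_mod_cast ht
  have hl' : (1 : ℝ) ≤ l := by exact_mod_cast hl
  have hpos : 0 < 4 * (t : ℝ) * Nb := by positivity
  set θ := ⌊D / (4 * t * Nb)⌋₊ with hθ
  have h1 : 2 * (l : ℝ) ≤ D / (4 * t * Nb) := by
    rw [le_div_iff₀ hpos]; nlinarith
  have h2 : 2 * l ≤ θ := by
    apply Nat.le_floor
    push_cast
    exact h1
  have h3 : D / (4 * t * Nb) < θ + 1 := Nat.lt_floor_add_one _
  have h4 : D / (8 * t * Nb) ≤ θ := by
    have h5 : D / (8 * t * Nb) = D / (4 * t * Nb) / 2 := by field_simp; ring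
    have h6 : (2 : ℝ) * l ≤ θ := by exact_mod_cast h2
    rw [h5]; linarith
  have h5 : (D / (16 * t * Nb)) ≤ ((θ - 1 + 1 - (l - 1) : ℕ) : ℝ) := by
    have h6 : θ ≤ 2 * (θ - 1 + 1 - (l - 1)) := by omega
    have h7 : (θ : ℝ) ≤ 2 * ((θ - 1 + 1 - (l - 1) : ℕ) : ℝ) := by exact_mod_cast h6
    have h8 : D / (16 * t * Nb) = D / (8 * t * Nb) / 2 := by field_simp; ring
    rw [h8]; linarith
  have h0 : 0 ≤ D / (16 * t * Nb) := by
    have : 0 ≤ D := le_trans (by positivity) hD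
    positivity
  calc (D / (16 * t * Nb)) ^ (l - 1) / ((l - 1).factorial : ℝ)
      ≤ ((θ - 1 + 1 - (l - 1) : ℕ) : ℝ) ^ (l - 1) / ((l - 1).factorial : ℝ) := by
        apply div_le_div_of_nonneg_right _ (by positivity)
        exact pow_le_pow_left₀ h0 h5 _
    _ ≤ _ := Nat.pow_le_choose _ _

open Classical in
/-- The counting argument, for large average degree. -/
theorem core (ℓ : Fin t → ℕ) (hℓ : ∀ i, 1 ≤ ℓ i) {Y : Fin t → Type} [∀ i, Fintype (Y i)]
    {X : Type} [Fintype X] (T : X → Finset (∀ i, Y i)) (u : ℕ)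
    (hT : ∀ x, Separable (T x : Set (∀ i, Y i)))
    (hu : ∀ A : ∀ i, Finset (Y i), (∀ i, (A i).card = ℓ i) →
      (univ.filter fun x => Fintype.piFinset A ⊆ T x).card ≤ u)
    (hNb : ∀ i, 0 < Nb Y i)
    (D : ℝ) (hD : 2 * (Fintype.card X * D) ≤ ∑ x, ((T x).card : ℝ))
    (hD' : ∀ i, 8 * t * ℓ i * Nb Y i ≤ D) (hD0 : 0 ≤ D) :
    (∑ x, ((T x).card : ℝ)) * D ^ (∑ i, (ℓ i - 1)) ≤
      4 * u * c0 t ℓ * ((∏ i, (Fintype.card (Y i)) : ℕ) : ℝ) ^ (∑ i, (ℓ i - 1) + 1) := by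
  set e : ℝ := ∑ x, ((T x).card : ℝ) with he
  set X' := univ.filter fun x => D ≤ ((T x).card : ℝ) with hX'
  have h1 : e / 2 ≤ ∑ x ∈ X', ((T x).card : ℝ) := by
    have h2 : e = ∑ x ∈ X', ((T x).card : ℝ) +
        ∑ x ∈ univ.filter (fun x => ¬ D ≤ ((T x).card : ℝ)), ((T x).card : ℝ) :=
      (Finset.sum_filter_add_sum_filter_not _ _ _).symm
    have h3 : ∑ x ∈ univ.filter (fun x => ¬ D ≤ ((T x).card : ℝ)), ((T x).card : ℝ) ≤
        Fintype.card X * D := by
      calc ∑ x ∈ univ.filter (fun x => ¬ D ≤ ((T x).card : ℝ)), ((T x).card : ℝ)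
          ≤ ∑ _x ∈ univ.filter (fun x => ¬ D ≤ ((T x).card : ℝ)), D := by
            apply Finset.sum_le_sum
            intro x hx
            exact (not_le.mp (Finset.mem_filter.mp hx).2).le
        _ = (univ.filter (fun x => ¬ D ≤ ((T x).card : ℝ))).card * D := by
            rw [sum_const, nsmul_eq_mul]
        _ ≤ Fintype.card X * D := by
            apply mul_le_mul_of_nonneg_right _ hD0
            exact_mod_cast Finset.card_le_univ _
    linarith
  set P : ℝ := ∏ i, ((D / (16 * t * Nb Y i)) ^ (ℓ i - 1) / ((ℓ i - 1).factorial : ℝ)) with hP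
  have hP0 : 0 ≤ P := Finset.prod_nonneg fun i _ => by positivity
  -- the boxes in one set
  have h2 : ∀ x ∈ X', ((T x).card : ℝ) * P ≤
      2 * ((∏ i, (ℓ i : ℝ)) * ((boxes ℓ (T x)).card : ℝ)) := by
    intro x hx
    have hx' : D ≤ ((T x).card : ℝ) := (Finset.mem_filter.mp hx).2
    set θ : Fin t → ℕ := fun i => ⌊D / (4 * t * Nb Y i)⌋₊ with hθ
    have h3 : 2 * ∑ i, θ i * Nb Y i ≤ (T x).card := by
      have h4 : ((2 * ∑ i, θ i * Nb Y i : ℕ) : ℝ) ≤ ((T x).card : ℝ) := by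
        push_cast
        have h5 : ∀ i ∈ (univ : Finset (Fin t)), (θ i : ℝ) * Nb Y i ≤ D / (4 * t) := by
          intro i _
          have hN : (0 : ℝ) < Nb Y i := by exact_mod_cast hNb i
          have h6 : (θ i : ℝ) ≤ D / (4 * t * Nb Y i) := Nat.floor_le (by positivity)
          have ht' : (0 : ℝ) < t := by
            have : 0 < t := lt_of_le_of_lt (Nat.zero_le _) i.isLt
            exact_mod_cast this
          calc (θ i : ℝ) * Nb Y i ≤ D / (4 * t * Nb Y i) * Nb Y i :=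
                mul_le_mul_of_nonneg_right h6 hN.le
            _ = D / (4 * t) := by field_simp
        have h6 := Finset.sum_le_sum h5
        rw [sum_const, card_univ, Fintype.card_fin, nsmul_eq_mul] at h6
        have h7 : (t : ℝ) * (D / (4 * t)) ≤ D / 4 := by
          rcases Nat.eq_zero_or_pos t with h | h
          · subst h; simp; positivity
          · have ht' : (0 : ℝ) < t := by exact_mod_cast h
            apply le_of_eq
            field_simp
        linarith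
      exact_mod_cast h4
    have h8 := boxes_ge' ℓ hℓ (T x) (hT x) θ h3
    have h9 : P ≤ ((∏ i, (θ i - 1).choose (ℓ i - 1) : ℕ) : ℝ) := by
      rw [hP]
      push_cast
      apply Finset.prod_le_prod
      · intro i _; positivity
      · intro i _
        have ht1 : 1 ≤ t := by
          have : 0 < t := lt_of_le_of_lt (Nat.zero_le _) i.isLt
          omega
        exact choose_bound t ht1 (ℓ i) (hℓ i) D (Nb Y i) (by exact_mod_cast hNb i) (hD' i)
    calc ((T x).card : ℝ) * P ≤ ((T x).card : ℝ) *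
          ((∏ i, (θ i - 1).choose (ℓ i - 1) : ℕ) : ℝ) :=
          mul_le_mul_of_nonneg_left h9 (by positivity)
      _ = (((T x).card * ∏ i, (θ i - 1).choose (ℓ i - 1) : ℕ) : ℝ) := by push_cast; ring
      _ ≤ ((2 * ((∏ i, ℓ i) * (boxes ℓ (T x)).card) : ℕ) : ℝ) := by exact_mod_cast h8
      _ = _ := by push_cast; ring
  have h3 : e / 2 * P ≤ 2 * ((∏ i, (ℓ i : ℝ)) * (u * ∏ i, (Fintype.card (Y i) : ℝ) ^ ℓ i)) := by
    calc e / 2 * P ≤ (∑ x ∈ X', ((T x).card : ℝ)) * P := mul_le_mul_of_nonneg_right h1 hP0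
      _ = ∑ x ∈ X', ((T x).card : ℝ) * P := by rw [Finset.sum_mul]
      _ ≤ ∑ x ∈ X', 2 * ((∏ i, (ℓ i : ℝ)) * ((boxes ℓ (T x)).card : ℝ)) :=
          Finset.sum_le_sum h2
      _ ≤ ∑ x, 2 * ((∏ i, (ℓ i : ℝ)) * ((boxes ℓ (T x)).card : ℝ)) := by
          apply Finset.sum_le_sum_of_subset_of_nonneg (Finset.subset_univ _)
          intro x _ _; positivity
      _ = 2 * ((∏ i, (ℓ i : ℝ)) * ∑ x, ((boxes ℓ (T x)).card : ℝ)) := by
          rw [← Finset.mul_sum, ← Finset.mul_sum]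
      _ ≤ _ := by
          have h4 := sum_boxes_le ℓ T u hu
          have h5 : ∑ x, ((boxes ℓ (T x)).card : ℝ) ≤ u * ∏ i, (Fintype.card (Y i) : ℝ) ^ ℓ i := by
            exact_mod_cast h4
          gcongr
  -- clear denominators
  have h4 : P * ∏ i, ((16 * t * Nb Y i : ℝ) ^ (ℓ i - 1) * ((ℓ i - 1).factorial : ℝ)) =
      D ^ (∑ i, (ℓ i - 1)) := by
    rw [hP, ← Finset.prod_mul_distrib, ← Finset.prod_pow_eq_pow_sum]
    apply Finset.prod_congr rfl
    intro i _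
    have ht' : (0 : ℝ) < t := by
      have : 0 < t := lt_of_le_of_lt (Nat.zero_le _) i.isLt
      exact_mod_cast this
    have hN : (0 : ℝ) < Nb Y i := by exact_mod_cast hNb i
    rw [div_pow]
    field_simp
  have h5 : (∏ i, (ℓ i : ℝ)) * (∏ i, (Fintype.card (Y i) : ℝ) ^ ℓ i) *
      ∏ i, ((16 * t * Nb Y i : ℝ) ^ (ℓ i - 1) * ((ℓ i - 1).factorial : ℝ)) =
      c0 t ℓ * ((∏ i, (Fintype.card (Y i)) : ℕ) : ℝ) ^ (∑ i, (ℓ i - 1) + 1) := by
    have h6 : ((∏ i, (Fintype.card (Y i)) : ℕ) : ℝ) ^ (∑ i, (ℓ i - 1) + 1) =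
        ∏ i, ((Fintype.card (Y i) : ℝ) *
          ((∏ j, (Fintype.card (Y j)) : ℕ) : ℝ) ^ (ℓ i - 1)) := by
      rw [Finset.prod_mul_distrib, Finset.prod_pow_eq_pow_sum, pow_succ]
      push_cast
      ring
    rw [h6, c0, ← Finset.prod_mul_distrib, ← Finset.prod_mul_distrib, ← Finset.prod_mul_distrib]
    apply Finset.prod_congr rfl
    intro i _
    have h7 : ((∏ j, (Fintype.card (Y j)) : ℕ) : ℝ) = (Fintype.card (Y i) : ℝ) * Nb Y i := by
      rw [← card_mul_Nb i]; push_cast; ring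
    rw [h7]
    obtain ⟨l, hl⟩ : ∃ l, ℓ i = l + 1 := ⟨ℓ i - 1, by have := hℓ i; omega⟩
    rw [hl]
    simp only [Nat.add_sub_cancel]
    rw [mul_pow, mul_pow, pow_succ]
    ring
  have hQ : 0 ≤ ∏ i, ((16 * t * Nb Y i : ℝ) ^ (ℓ i - 1) * ((ℓ i - 1).factorial : ℝ)) :=
    Finset.prod_nonneg fun i _ => by positivity
  have h6 := mul_le_mul_of_nonneg_right h3 hQ
  calc e * D ^ (∑ i, (ℓ i - 1)) = 2 * (e / 2 * P *
        ∏ i, ((16 * t * Nb Y i : ℝ) ^ (ℓ i - 1) * ((ℓ i - 1).factorial : ℝ))) := by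
        rw [← h4]; ring
    _ ≤ 2 * (2 * ((∏ i, (ℓ i : ℝ)) * (u * ∏ i, (Fintype.card (Y i) : ℝ) ^ ℓ i)) *
        ∏ i, ((16 * t * Nb Y i : ℝ) ^ (ℓ i - 1) * ((ℓ i - 1).factorial : ℝ))) := by
        linarith
    _ = 4 * u * ((∏ i, (ℓ i : ℝ)) * (∏ i, (Fintype.card (Y i) : ℝ) ^ ℓ i) *
        ∏ i, ((16 * t * Nb Y i : ℝ) ^ (ℓ i - 1) * ((ℓ i - 1).factorial : ℝ))) := by ring
    _ = _ := by rw [h5]; ring

end Pool.Agent.T9h84.SE
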