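import Mathlib

set_option autoImplicit false

open Finset Function

namespace Pool.Agent.T9h84.SE

/-- A set `S` of tuples is separable if two values `a`, `b` of a coordinate which occur in `S`
with the same other coordinates are exchangeable in `S`. -/
def Separable {t : ℕ} {Y : Fin t → Type} (S : Set (∀ i, Y i)) : Prop :=
  ∀ (i : Fin t) (a b : Y i) (y z : ∀ i, Y i),
    update y i a ∈ S → update y i b ∈ S → update z i a ∈ S → update z i b ∈ S

variable {t : ℕ} {Y : Fin t → Type}

theorem Separable.box {S : Set (∀ i, Y i)} (hS : Separable S) {y : ∀ i, Y i} (hy : y ∈ S)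
    (z : ∀ i, Y i) (hz : ∀ i, update y i (z i) ∈ S) : z ∈ S := by
  classical
  have key : ∀ s : Finset (Fin t), (fun j => if j ∈ s then z j else y j) ∈ S := by
    intro s
    induction s using Finset.induction_on with
    | empty => simpa using hy
    | insert i s his ih =>
      have h := hS i (y i) (z i) y (fun j => if j ∈ s then z j else y j)
        (by rw [update_eq_self]; exact hy) (hz i)
        (by
          have : update (fun j => if j ∈ s then z j else y j) i (y i) =
              fun j => if j ∈ s then z j else y j := by
            funext j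
            by_cases hj : j = i
            · subst hj; simp [his]
            · simp [update_of_ne hj]
          rw [this]; exact ih)
      have : update (fun j => if j ∈ s then z j else y j) i (z i) =
          fun j => if j ∈ insert i s then z j else y j := by
        funext j
        by_cases hj : j = i
        · subst hj; simp
        · simp [update_of_ne hj, hj]
      rw [this] at h
      exact h
  have := key univ
  simpa using this

theorem Separable.inter_ne {S : Set (∀ i, Y i)} (hS : Separable S) (i₀ : Fin t) (c : Y i₀) :
    Separable (S ∩ {y | y i₀ ≠ c}) := by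
  intro i a b y z h1 h2 h3
  refine ⟨hS i a b y z h1.1 h2.1 h3.1, ?_⟩
  have h2' : update y i b i₀ ≠ c := h2.2
  have h3' : update z i a i₀ ≠ c := h3.2
  show update z i b i₀ ≠ c
  by_cases h : i₀ = i
  · subst h
    simpa using h2'
  · rw [update_of_ne h] at h3' ⊢
    exact h3'

section
variable [∀ i, Fintype (Y i)]

open Classical in
/-- The values of the `i`-th coordinate with which `y` is in `S`. -/
noncomputable def fib (S : Finset (∀ i, Y i)) (y : ∀ i, Y i) (i : Fin t) : Finset (Y i) :=
  univ.filter fun b => update y i b ∈ S

/-- The number of the tuples of all coordinates but the `i`-th one. -/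
noncomputable def Nb (Y : Fin t → Type) [∀ i, Fintype (Y i)] (i : Fin t) : ℕ :=
  ∏ j : {j : Fin t // j ≠ i}, Fintype.card (Y j)

theorem card_mul_Nb (i : Fin t) : Fintype.card (Y i) * Nb Y i = ∏ j, Fintype.card (Y j) := by
  classical
  unfold Nb
  exact (Fintype.prod_eq_mul_prod_subtype_ne (fun j => Fintype.card (Y j)) i).symm

open Classical in
theorem card_bad (S : Finset (∀ i, Y i)) (i : Fin t) (θ : ℕ) :
    (S.filter fun y => (fib S y i).card < θ).card ≤ θ * Nb Y i := by
  set B := S.filter fun y => (fib S y i).card < θ with hB
  let π : (∀ i, Y i) → (∀ j : {j : Fin t // j ≠ i}, Y j) := fun y j => y j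
  have h1 : B.card ≤ θ * (B.image π).card := by
    apply Finset.card_le_mul_card_image
    intro a ha
    obtain ⟨y0, hy0, rfl⟩ := Finset.mem_image.mp ha
    have h2 : (B.filter fun y => π y = π y0).card ≤ (fib S y0 i).card := by
      apply Finset.card_le_card_of_injOn (fun y => y i)
      · intro y hy
        simp only [coe_filter, Set.mem_ofPred_eq] at hy
        have e : update y0 i (y i) = y := by
          funext j
          by_cases hj : j = i
          · subst hj; simp
          · rw [update_of_ne hj]
            exact (congrFun hy.2 ⟨j, hj⟩).symm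
        have hyS : y ∈ S := (Finset.mem_filter.mp hy.1).1
        simp only [fib, coe_filter, Set.mem_ofPred_eq, mem_univ, true_and]
        rw [e]; exact hyS
      · intro y hy y' hy' hh
        simp only [coe_filter, Set.mem_ofPred_eq] at hy hy'
        funext j
        by_cases hj : j = i
        · subst hj; exact hh
        · have h3 := congrFun hy.2 ⟨j, hj⟩
          have h4 := congrFun hy'.2 ⟨j, hj⟩
          exact h3.trans h4.symm
    have h3 : (fib S y0 i).card < θ := (Finset.mem_filter.mp hy0).2
    omega
  have h2 : (B.image π).card ≤ Nb Y i := by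
    calc (B.image π).card ≤ (univ : Finset (∀ j : {j : Fin t // j ≠ i}, Y j)).card :=
          Finset.card_le_card (Finset.subset_univ _)
      _ = Nb Y i := by
          rw [Finset.card_univ, Fintype.card_pi]; rfl
  exact h1.trans (Nat.mul_le_mul_left _ h2)

open Classical in
/-- The families of sets of the sizes `ℓ i` whose product is contained in `S`. -/
noncomputable def boxes (ℓ : Fin t → ℕ) (S : Finset (∀ i, Y i)) : Finset (∀ i, Finset (Y i)) :=
  (Fintype.piFinset fun i => powersetCard (ℓ i) univ).filter fun A => Fintype.piFinset A ⊆ S

open Classical in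
theorem boxes_ge (ℓ : Fin t → ℕ) (hℓ : ∀ i, 1 ≤ ℓ i) (S : Finset (∀ i, Y i))
    (hS : Separable (S : Set (∀ i, Y i))) (θ : Fin t → ℕ) :
    (S.filter fun y => ∀ i, θ i ≤ (fib S y i).card).card * ∏ i, (θ i - 1).choose (ℓ i - 1) ≤
      (∏ i, ℓ i) * (boxes ℓ S).card := by
  set Gd := S.filter fun y => ∀ i, θ i ≤ (fib S y i).card with hGd
  have h1 : ∀ y ∈ Gd, ∏ i, (θ i - 1).choose (ℓ i - 1) ≤
      ((boxes ℓ S).filter fun A => y ∈ Fintype.piFinset A).card := by
    intro y hy
    have hyS : y ∈ S := (Finset.mem_filter.mp hy).1
    have hyθ : ∀ i, θ i ≤ (fib S y i).card := (Finset.mem_filter.mp hy).2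
    have hmem : ∀ i, y i ∈ fib S y i := by
      intro i
      simp [fib, update_eq_self, hyS]
    calc ∏ i, (θ i - 1).choose (ℓ i - 1)
        ≤ ∏ i, ((fib S y i).erase (y i)).card.choose (ℓ i - 1) := by
          apply Finset.prod_le_prod'
          intro i _
          apply Nat.choose_le_choose
          rw [Finset.card_erase_of_mem (hmem i)]
          exact Nat.sub_le_sub_right (hyθ i) 1
      _ = (Fintype.piFinset fun i => powersetCard (ℓ i - 1) ((fib S y i).erase (y i))).card := by
          rw [Fintype.card_piFinset]
          simp
      _ ≤ ((boxes ℓ S).filter fun A => y ∈ Fintype.piFinset A).card := by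
          apply Finset.card_le_card_of_injOn (fun B i => insert (y i) (B i))
          · intro B hB
            rw [mem_coe, Fintype.mem_piFinset] at hB
            have hB' : ∀ i, B i ⊆ (fib S y i).erase (y i) ∧ (B i).card = ℓ i - 1 := fun i =>
              mem_powersetCard.mp (hB i)
            rw [mem_coe, mem_filter]
            refine ⟨?_, ?_⟩
            · unfold boxes
              rw [mem_filter]
              refine ⟨?_, ?_⟩
              · rw [Fintype.mem_piFinset]
                intro i
                rw [mem_powersetCard]
                refine ⟨subset_univ _, ?_⟩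
                rw [card_insert_of_notMem, (hB' i).2]
                · have := hℓ i; omega
                · intro h
                  exact (mem_erase.mp ((hB' i).1 h)).1 rfl
              · intro z hz
                rw [Fintype.mem_piFinset] at hz
                have := hS.box (y := y) (by exact_mod_cast hyS) z (fun i => by
                  rcases mem_insert.mp (hz i) with h | h
                  · rw [h, update_eq_self]; exact_mod_cast hyS
                  · have h5 := (mem_erase.mp ((hB' i).1 h)).2
                    have h6 : update y i (z i) ∈ S := (mem_filter.mp h5).2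
                    exact_mod_cast h6)
                exact_mod_cast this
            · rw [Fintype.mem_piFinset]
              intro i
              exact mem_insert_self _ _
          · intro B hB B' hB' hh
            rw [mem_coe, Fintype.mem_piFinset] at hB hB'
            funext i
            have h7 : insert (y i) (B i) = insert (y i) (B' i) := congrFun hh i
            have h8 : y i ∉ B i := fun h =>
              (mem_erase.mp ((mem_powersetCard.mp (hB i)).1 h)).1 rfl
            have h9 : y i ∉ B' i := fun h =>
              (mem_erase.mp ((mem_powersetCard.mp (hB' i)).1 h)).1 rfl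
            rw [← erase_insert h8, h7, erase_insert h9]
  calc Gd.card * ∏ i, (θ i - 1).choose (ℓ i - 1)
      = ∑ _y ∈ Gd, ∏ i, (θ i - 1).choose (ℓ i - 1) := by rw [sum_const, smul_eq_mul]
    _ ≤ ∑ y ∈ Gd, ((boxes ℓ S).filter fun A => y ∈ Fintype.piFinset A).card :=
        Finset.sum_le_sum h1
    _ = ∑ A ∈ boxes ℓ S, (Gd.filter fun y => y ∈ Fintype.piFinset A).card := by
        simp_rw [card_filter]
        exact Finset.sum_comm
    _ ≤ ∑ A ∈ boxes ℓ S, ∏ i, ℓ i := by
        apply Finset.sum_le_sum
        intro A hA
        unfold boxes at hA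
        rw [mem_filter, Fintype.mem_piFinset] at hA
        calc (Gd.filter fun y => y ∈ Fintype.piFinset A).card ≤ (Fintype.piFinset A).card := by
              apply Finset.card_le_card
              intro y hy
              exact (mem_filter.mp hy).2
          _ = ∏ i, (A i).card := Fintype.card_piFinset _
          _ = ∏ i, ℓ i := by
              apply Finset.prod_congr rfl
              intro i _
              exact (mem_powersetCard.mp (hA.1 i)).2
    _ = (∏ i, ℓ i) * (boxes ℓ S).card := by rw [sum_const, smul_eq_mul, mul_comm]

open Classical in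
theorem boxes_ge' (ℓ : Fin t → ℕ) (hℓ : ∀ i, 1 ≤ ℓ i) (S : Finset (∀ i, Y i))
    (hS : Separable (S : Set (∀ i, Y i))) (θ : Fin t → ℕ)
    (hθ : 2 * ∑ i, θ i * Nb Y i ≤ S.card) :
    S.card * ∏ i, (θ i - 1).choose (ℓ i - 1) ≤ 2 * ((∏ i, ℓ i) * (boxes ℓ S).card) := by
  have h1 := boxes_ge ℓ hℓ S hS θ
  have h2 : S.card ≤ (S.filter fun y => ∀ i, θ i ≤ (fib S y i).card).card +
      ∑ i, θ i * Nb Y i := by
    have h3 : S ⊆ (S.filter fun y => ∀ i, θ i ≤ (fib S y i).card) ∪
        (univ.biUnion fun i => S.filter fun y => (fib S y i).card < θ i) := by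
      intro y hy
      by_cases h : ∀ i, θ i ≤ (fib S y i).card
      · exact mem_union_left _ (mem_filter.mpr ⟨hy, h⟩)
      · push Not at h
        obtain ⟨i, hi⟩ := h
        exact mem_union_right _ (mem_biUnion.mpr ⟨i, mem_univ _, mem_filter.mpr ⟨hy, hi⟩⟩)
    calc S.card ≤ _ := Finset.card_le_card h3
      _ ≤ _ + _ := Finset.card_union_le _ _
      _ ≤ _ := by
        apply Nat.add_le_add_left
        calc _ ≤ ∑ i, (S.filter fun y => (fib S y i).card < θ i).card := Finset.card_biUnion_le
          _ ≤ _ := Finset.sum_le_sum fun i _ => card_bad S i (θ i)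
  have h4 : S.card ≤ 2 * (S.filter fun y => ∀ i, θ i ≤ (fib S y i).card).card := by omega
  calc S.card * ∏ i, (θ i - 1).choose (ℓ i - 1)
      ≤ (2 * (S.filter fun y => ∀ i, θ i ≤ (fib S y i).card).card) *
        ∏ i, (θ i - 1).choose (ℓ i - 1) := Nat.mul_le_mul_right _ h4
    _ = 2 * ((S.filter fun y => ∀ i, θ i ≤ (fib S y i).card).card *
        ∏ i, (θ i - 1).choose (ℓ i - 1)) := by ring
    _ ≤ _ := Nat.mul_le_mul_left _ h1

end

end Pool.Agent.T9h84.SE
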