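import Pool.Agent.T9h84.SE.Main

set_option autoImplicit false

open Finset Function

namespace Pool.Agent.T9h84.SE

variable {t : ℕ}

/-- Every neighbourhood contains a separable set (apart from the vertex itself) which has at least
the `L`-th part of its size. -/
def SepNbhds (L : ℕ) {Y : Fin t → Type} (G : SimpleGraph (∀ i, Y i)) : Prop :=
  ∀ x, ∃ S : Set (∀ i, Y i), Separable S ∧ (∀ y ∈ S, y ≠ x → G.Adj x y) ∧
    (G.neighborSet x).ncard ≤ L * S.ncard

theorem not_free {V : Type} (G : SimpleGraph V) (r : ℕ) (A B : Finset V) (hA : r ≤ A.card)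
    (hB : r ≤ B.card) (h : ∀ a ∈ A, ∀ b ∈ B, G.Adj a b) :
    ¬ (completeBipartiteGraph (Fin r) (Fin r)).Free G := by
  classical
  intro hf
  obtain ⟨A', hA', hcA⟩ := Finset.exists_subset_card_eq hA
  obtain ⟨B', hB', hcB⟩ := Finset.exists_subset_card_eq hB
  let eA : Fin r ≃ A' := (Fintype.equivFinOfCardEq (by simpa using hcA)).symm
  let eB : Fin r ≃ B' := (Fintype.equivFinOfCardEq (by simpa using hcB)).symm
  apply hf
  refine ⟨⟨⟨Sum.elim (fun i => (eA i : V)) (fun i => (eB i : V)), ?_⟩, ?_⟩⟩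
  · intro a b hab
    rcases a with i | i <;> rcases b with j | j
    · simp at hab
    · exact h _ (hA' (eA i).2) _ (hB' (eB j).2)
    · exact (h _ (hA' (eA j).2) _ (hB' (eB i).2)).symm
    · simp at hab
  · intro a b hab
    rcases a with i | i <;> rcases b with j | j
    · have hab' : (eA i : V) = eA j := hab
      rw [eA.injective (Subtype.ext hab')]
    · exfalso
      exact (h _ (hA' (eA i).2) _ (hB' (eB j).2)).ne hab
    · exfalso
      exact (h _ (hA' (eA j).2) _ (hB' (eB i).2)).ne hab.symm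
    · have hab' : (eB i : V) = eB j := hab
      rw [eB.injective (Subtype.ext hab')]

open Classical in
theorem card_slice {Y : Fin t → Type} [∀ i, Fintype (Y i)] (i : Fin t) (c : Y i) :
    (univ.filter fun y : (∀ i, Y i) => y i = c).card ≤ Nb Y i := by
  calc (univ.filter fun y : (∀ i, Y i) => y i = c).card
      ≤ (univ : Finset (∀ j : {j : Fin t // j ≠ i}, Y j)).card := by
        apply Finset.card_le_card_of_injOn (fun y (j : {j : Fin t // j ≠ i}) => y j)
        · intro y _; simp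
        · intro y hy y' hy' hh
          simp only [coe_filter, Set.mem_ofPred_eq, mem_univ, true_and] at hy hy'
          funext j
          by_cases hj : j = i
          · subst hj; rw [hy, hy']
          · exact congrFun hh ⟨j, hj⟩
    _ = Nb Y i := by rw [Finset.card_univ, Fintype.card_pi]; rfl

theorem graph_bound (ℓ : Fin t → ℕ) (hℓ : ∀ i, 1 ≤ ℓ i) (r : ℕ) (hr : r ≤ ∏ i, ℓ i) :
    ∃ C : ℝ, 0 < C ∧ ∀ (L : ℕ) (Y : Fin t → Type) [∀ i, Fintype (Y i)]
      (G : SimpleGraph (∀ i, Y i)), SepNbhds L G →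
      (completeBipartiteGraph (Fin r) (Fin r)).Free G →
      (Nat.card G.edgeSet : ℝ) ≤ C * L *
        ((Nat.card (∀ i, Y i) : ℝ) ^ (2 - 1 / (1 + ∑ i, ((ℓ i : ℝ) - 1))) +
          ∑ i, (Nat.card (∀ i, Y i) : ℝ) ^ 2 / Nat.card (Y i)) := by
  classical
  obtain ⟨C, hC, hmain⟩ := bip ℓ hℓ
  set κ : ℝ := 1 / (1 + ∑ i, ((ℓ i : ℝ) - 1)) with hκ
  have hkr : ((∑ i, (ℓ i - 1) : ℕ) : ℝ) = ∑ i, ((ℓ i : ℝ) - 1) := by
    push_cast
    apply Finset.sum_congr rfl
    intro i _
    rw [Nat.cast_sub (hℓ i)]; simp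
  have hκ' : 1 / ((∑ i, (ℓ i - 1) : ℕ) + 1 : ℝ) = κ := by rw [hkr, hκ, add_comm]
  have hsum0 : 0 ≤ ∑ i, ((ℓ i : ℝ) - 1) := by
    apply Finset.sum_nonneg
    intro i _
    have : (1 : ℝ) ≤ ℓ i := by exact_mod_cast hℓ i
    linarith
  have hκ1 : κ ≤ 1 := by
    rw [hκ, div_le_one (by linarith)]; linarith
  have hκ0 : 0 ≤ κ := by rw [hκ]; apply div_nonneg zero_le_one; linarith
  refine ⟨(C * ((r : ℝ) ^ κ + 1) + 1), by positivity, ?_⟩
  intro L Y _ G hG hfree
  set n : ℝ := (Nat.card (∀ i, Y i) : ℝ) with hn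
  have hncard : n = ((∏ i, Fintype.card (Y i) : ℕ) : ℝ) := by
    rw [hn, Nat.card_eq_fintype_card, Fintype.card_pi]
  have hNbn : ∀ i, n * Nb Y i = n ^ 2 / Nat.card (Y i) := by
    intro i
    by_cases h0 : Fintype.card (Y i) = 0
    · have : n = 0 := by
        rw [hncard, Finset.prod_eq_zero (Finset.mem_univ i) h0]; simp
      rw [this]; simp
    · have h1 : (Fintype.card (Y i) : ℝ) ≠ 0 := by exact_mod_cast h0
      have h2 : n = (Fintype.card (Y i) : ℝ) * Nb Y i := by
        rw [hncard, ← card_mul_Nb i]; push_cast; ring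
      rw [Nat.card_eq_fintype_card, sq, eq_div_iff h1]
      calc n * (Nb Y i : ℝ) * Fintype.card (Y i) = n * (Fintype.card (Y i) * Nb Y i) := by ring
        _ = n * n := by rw [← h2]
  have hRHS : 0 ≤ n ^ (2 - κ) + ∑ i, n ^ 2 / Nat.card (Y i) := by positivity
  rcases Nat.eq_zero_or_pos t with ht | ht
  · -- one vertex
    subst ht
    have hE : Nat.card G.edgeSet = 0 := by
      rw [Nat.card_eq_zero]
      left
      constructor
      rintro ⟨e, he⟩
      induction e using Sym2.ind with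
      | _ a b => exact (G.ne_of_adj he) (Subsingleton.elim a b)
    rw [hE, Nat.cast_zero]
    have h9 : (0 : ℝ) ≤ (r : ℝ) ^ κ := by positivity
    have h8 : (0 : ℝ) ≤ C * ((r : ℝ) ^ κ + 1) + 1 := by positivity
    exact mul_nonneg (mul_nonneg h8 (by positivity)) hRHS
  have i₀ : Fin t := ⟨0, ht⟩
  choose S hS hadj hcard using hG
  set T : (∀ i, Y i) → Finset (∀ i, Y i) := fun x =>
    (S x ∩ {y | y i₀ ≠ x i₀}).toFinite.toFinset with hT
  have hTc : ∀ x, ((T x : Finset (∀ i, Y i)) : Set (∀ i, Y i)) = S x ∩ {y | y i₀ ≠ x i₀} := by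
    intro x
    exact Set.Finite.coe_toFinset _
  have hTsep : ∀ x, Separable (T x : Set (∀ i, Y i)) := by
    intro x
    rw [hTc x]
    exact (hS x).inter_ne i₀ (x i₀)
  have hTu : ∀ A : ∀ i, Finset (Y i), (∀ i, (A i).card = ℓ i) →
      (univ.filter fun x => Fintype.piFinset A ⊆ T x).card ≤ r := by
    intro A hA
    by_contra hcon
    push Not at hcon
    refine not_free G r (univ.filter fun x => Fintype.piFinset A ⊆ T x) (Fintype.piFinset A)
      hcon.le ?_ ?_ hfree
    · rw [Fintype.card_piFinset]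
      calc r ≤ ∏ i, ℓ i := hr
        _ = ∏ i, (A i).card := Finset.prod_congr rfl fun i _ => (hA i).symm
    · intro a ha b hb
      have h1 : b ∈ (T a : Set (∀ i, Y i)) := (Finset.mem_filter.mp ha).2 hb
      rw [hTc a] at h1
      exact hadj a b h1.1 (fun h => h1.2 (by rw [h]))
  have h1 := hmain Y (∀ i, Y i) T r hTsep hTu
  rw [hκ', ← hncard, ← Nat.card_eq_fintype_card, ← hn] at h1
  -- the sizes of `S x` and `T x`
  have hST : ∀ x, ((S x).ncard : ℝ) ≤ (T x).card + Nb Y i₀ := by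
    intro x
    have h2 : (S x).ncard ≤ (T x).card + (univ.filter fun y : (∀ i, Y i) => y i₀ = x i₀).card := by
      rw [← Set.ncard_coe_finset, ← Set.ncard_coe_finset, hTc x]
      refine le_trans (Set.ncard_le_ncard ?_ (Set.toFinite _)) (Set.ncard_union_le _ _)
      intro y hy
      by_cases h : y i₀ = x i₀
      · right; simpa using h
      · left; exact ⟨hy, h⟩
    have h3 := card_slice (Y := Y) i₀ (x i₀)
    have h4 : (S x).ncard ≤ (T x).card + Nb Y i₀ := h2.trans (Nat.add_le_add_left h3 _)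
    exact_mod_cast h4
  have hdeg : (2 * Nat.card G.edgeSet : ℝ) ≤ L * (∑ x, ((T x).card : ℝ) + n * Nb Y i₀) := by
    have h2 := G.sum_degrees_eq_twice_card_edges
    have h3 : (Nat.card G.edgeSet) = G.edgeFinset.card := by
      rw [Nat.card_eq_fintype_card, SimpleGraph.edgeFinset_card]
    have h4 : ∀ x, (G.degree x : ℝ) ≤ L * ((T x).card + Nb Y i₀) := by
      intro x
      have h5 : G.degree x = (G.neighborSet x).ncard := by
        rw [← G.card_neighborSet_eq_degree x, Set.ncard_eq_toFinset_card', Set.toFinset_card]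
      have h6 := hcard x
      have h7 : (G.degree x : ℝ) ≤ L * (S x).ncard := by rw [h5]; exact_mod_cast h6
      calc (G.degree x : ℝ) ≤ L * (S x).ncard := h7
        _ ≤ _ := mul_le_mul_of_nonneg_left (hST x) (by positivity)
    calc (2 * Nat.card G.edgeSet : ℝ) = ∑ x, (G.degree x : ℝ) := by
          rw [h3]; exact_mod_cast h2.symm
      _ ≤ ∑ x, (L : ℝ) * ((T x).card + Nb Y i₀) := Finset.sum_le_sum fun x _ => h4 x
      _ = _ := by
          rw [← Finset.mul_sum, Finset.sum_add_distrib, sum_const, card_univ, nsmul_eq_mul, hn,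
            Nat.card_eq_fintype_card]
  have hn2 : n ^ (1 - κ) * n = n ^ (2 - κ) := by
    rcases eq_or_ne n 0 with h | h
    · rw [h, mul_zero, Real.zero_rpow (by linarith)]
    · have hn0 : 0 < n := lt_of_le_of_ne (by positivity) h.symm
      rw [← Real.rpow_add_one hn0.ne']
      congr 1; ring
  have hnb2 : n * ∑ i, (Nb Y i : ℝ) = ∑ i, n ^ 2 / Nat.card (Y i) := by
    rw [Finset.mul_sum]
    exact Finset.sum_congr rfl fun i _ => hNbn i
  have hnb3 : n * Nb Y i₀ ≤ ∑ i, n ^ 2 / Nat.card (Y i) := by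
    rw [hNbn i₀]
    exact Finset.single_le_sum (f := fun i => n ^ 2 / (Nat.card (Y i) : ℝ))
      (fun j _ => by positivity) (Finset.mem_univ i₀)
  have hA0 : 0 ≤ n ^ (2 - κ) := by positivity
  have hB0 : 0 ≤ ∑ i, n ^ 2 / (Nat.card (Y i) : ℝ) := Finset.sum_nonneg fun i _ => by positivity
  have h5 : ∑ x, ((T x).card : ℝ) ≤ C * ((r : ℝ) ^ κ + 1) *
      (n ^ (2 - κ) + ∑ i, n ^ 2 / Nat.card (Y i)) := by
    calc ∑ x, ((T x).card : ℝ) ≤ C * ((r : ℝ) ^ κ * n ^ (1 - κ) * n +
          n * ∑ i, (Nb Y i : ℝ)) := h1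
      _ = C * ((r : ℝ) ^ κ * n ^ (2 - κ) + ∑ i, n ^ 2 / Nat.card (Y i)) := by
          rw [hnb2, mul_assoc ((r : ℝ) ^ κ), hn2]
      _ ≤ C * (((r : ℝ) ^ κ + 1) * (n ^ (2 - κ) + ∑ i, n ^ 2 / Nat.card (Y i))) := by
          apply mul_le_mul_of_nonneg_left _ hC.le
          have h6 : 0 ≤ (r : ℝ) ^ κ := by positivity
          nlinarith [mul_nonneg h6 hB0]
      _ = _ := by ring
  have hL0 : (0 : ℝ) ≤ L := by positivity
  have hE0 : (0 : ℝ) ≤ Nat.card G.edgeSet := by positivity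
  calc (Nat.card G.edgeSet : ℝ) ≤ 2 * Nat.card G.edgeSet := by linarith
    _ ≤ L * (∑ x, ((T x).card : ℝ) + n * Nb Y i₀) := hdeg
    _ ≤ L * (C * ((r : ℝ) ^ κ + 1) * (n ^ (2 - κ) + ∑ i, n ^ 2 / Nat.card (Y i)) +
          (n ^ (2 - κ) + ∑ i, n ^ 2 / Nat.card (Y i))) := by
        apply mul_le_mul_of_nonneg_left _ hL0
        linarith
    _ = _ := by ring

end Pool.Agent.T9h84.SE
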