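import Pool.Agent.T9h84.SE.Sharp

set_option autoImplicit false

open Finset Function

namespace Pool.Agent.T9h84.SE

/-- `S` is the set of the solutions of an equation `f_1 (y_1) * f_2 (y_2) * ... * f_t (y_t) = c` in a
group, with arbitrary functions `f_i`. -/
def GroupEquation {t : ℕ} {Y : Fin t → Type} (S : Set (∀ i, Y i)) : Prop :=
  ∃ (A : Type) (_ : Group A) (f : ∀ i, Y i → A) (c : A),
    S = {y | (List.ofFn fun i => f i (y i)).prod = c}

/-- For every vertex `x` there is an equation in a group, in which every coordinate of `y` occurs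
once, all of whose solutions `y ≠ x` are neighbours of `x`, and at least the `L`-th part of the
neighbours are obtained in this way. -/
def EqNbhds (L : ℕ) {t : ℕ} {Y : Fin t → Type} (G : SimpleGraph (∀ i, Y i)) : Prop :=
  ∀ x, ∃ S : Set (∀ i, Y i), GroupEquation S ∧ (∀ y ∈ S, y ≠ x → G.Adj x y) ∧
    (G.neighborSet x).ncard ≤ L * S.ncard

/-- `u` on the interval `[a, b)` and `w` elsewhere. -/
def comb {t : ℕ} {Y : Fin t → Type} (a b : ℕ) (u w : ∀ i, Y i) : ∀ i, Y i :=
  fun i => if a ≤ i.val ∧ i.val < b then u i else w i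

theorem ofFn_comb {t : ℕ} {Y : Fin t → Type} {A : Type} (f : ∀ i, Y i → A) (a b : ℕ) (hab : a ≤ b)
    (hb : b ≤ t) (u w : ∀ i, Y i) :
    (List.ofFn fun i => f i (comb a b u w i)) = (List.ofFn fun i => f i (w i)).take a ++
      (((List.ofFn fun i => f i (u i)).take b).drop a ++ (List.ofFn fun i => f i (w i)).drop b) := by
  apply List.ext_getElem
  · simp only [List.length_ofFn, List.length_append, List.length_take, List.length_drop]
    omega
  · intro n h1 h2
    rw [List.length_ofFn] at h1
    rw [List.getElem_ofFn]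
    by_cases hna : n < a
    · rw [List.getElem_append_left (by rw [List.length_take, List.length_ofFn]; omega),
        List.getElem_take, List.getElem_ofFn]
      congr 1
      unfold comb
      rw [if_neg (by simp; omega)]
    · have ha : (List.take a (List.ofFn fun i => f i (w i))).length = a := by
        rw [List.length_take, List.length_ofFn]; omega
      rw [List.getElem_append_right (by rw [ha]; omega)]
      by_cases hnb : n < b
      · rw [List.getElem_append_left (by
          rw [ha, List.length_drop, List.length_take, List.length_ofFn]; omega),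
          List.getElem_drop, List.getElem_take, List.getElem_ofFn]
        have hidx : a + (n - (List.take a (List.ofFn fun i => f i (w i))).length) = n := by
          rw [ha]; omega
        have : (⟨a + (n - (List.take a (List.ofFn fun i => f i (w i))).length), by
            rw [hidx]; exact h1⟩ : Fin t) = ⟨n, h1⟩ := Fin.ext hidx
        rw [this]
        congr 1
        unfold comb
        rw [if_pos (by simp; omega)]
      · have hb' : (List.drop a (List.take b (List.ofFn fun i => f i (u i)))).length = b - a := by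
          rw [List.length_drop, List.length_take, List.length_ofFn]; omega
        rw [List.getElem_append_right (by rw [hb', ha]; omega), List.getElem_drop,
          List.getElem_ofFn]
        have hidx : b + (n - (List.take a (List.ofFn fun i => f i (w i))).length -
            (List.drop a (List.take b (List.ofFn fun i => f i (u i)))).length) = n := by
          rw [ha, hb']; omega
        have : (⟨b + (n - (List.take a (List.ofFn fun i => f i (w i))).length -
            (List.drop a (List.take b (List.ofFn fun i => f i (u i)))).length), by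
            rw [hidx]; exact h1⟩ : Fin t) = ⟨n, h1⟩ := Fin.ext hidx
        rw [this]
        congr 1
        unfold comb
        rw [if_neg (by simp; omega)]

theorem GroupEquation.exch {t : ℕ} {Y : Fin t → Type} {S : Set (∀ i, Y i)} (hS : GroupEquation S)
    (a b : ℕ) (hab : a ≤ b) (hb : b ≤ t) (u v w w' : ∀ i, Y i) (h1 : comb a b u w ∈ S)
    (h2 : comb a b v w ∈ S) (h3 : comb a b u w' ∈ S) : comb a b v w' ∈ S := by
  obtain ⟨A, _, f, c, rfl⟩ := hS
  have h1' : (List.ofFn fun i => f i (comb a b u w i)).prod = c := h1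
  have h2' : (List.ofFn fun i => f i (comb a b v w i)).prod = c := h2
  have h3' : (List.ofFn fun i => f i (comb a b u w' i)).prod = c := h3
  show (List.ofFn fun i => f i (comb a b v w' i)).prod = c
  rw [ofFn_comb f a b hab hb, List.prod_append, List.prod_append] at h1' h2' h3' ⊢
  have h4 := mul_left_cancel (h1'.trans h2'.symm)
  have h5 := mul_right_cancel h4
  rw [← h5]
  exact h3'

theorem GroupEquation.separable {t : ℕ} {Y : Fin t → Type} {S : Set (∀ i, Y i)}
    (hS : GroupEquation S) : Separable S := by
  classical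
  intro i a b y z h1 h2 h3
  have key : ∀ (w : ∀ i, Y i) (e : Y i), update w i e = comb i.val (i.val + 1) (update w i e) w := by
    intro w e
    funext j
    unfold comb
    by_cases hj : i.val ≤ j.val ∧ j.val < i.val + 1
    · rw [if_pos hj]
    · rw [if_neg hj]
      apply update_of_ne
      intro h
      apply hj
      rw [h]
      omega
  have key2 : ∀ (w w' : ∀ i, Y i) (e : Y i),
      update w i e = comb i.val (i.val + 1) (update w' i e) w := by
    intro w w' e
    funext j
    unfold comb
    by_cases hj : i.val ≤ j.val ∧ j.val < i.val + 1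
    · rw [if_pos hj]
      have : j = i := Fin.ext (by omega)
      subst this
      rw [update_self, update_self]
    · rw [if_neg hj]
      apply update_of_ne
      intro h
      apply hj
      rw [h]
      omega
  rw [key2 z y b]
  apply hS.exch i.val (i.val + 1) (by omega) (by omega) (update y i a) (update y i b) y z
  · rw [← key2 y y a]; exact h1
  · rw [← key2 y y b]; exact h2
  · rw [← key2 z y a]; exact h3

theorem EqNbhds.sep {L t : ℕ} {Y : Fin t → Type} {G : SimpleGraph (∀ i, Y i)} (h : EqNbhds L G) :
    SepNbhds L G := by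
  intro x
  obtain ⟨S, h1, h2, h3⟩ := h x
  exact ⟨S, h1.separable, h2, h3⟩

theorem quad_eq {F : Type} [Field F] (κ : F) (h0 : κ ≠ 0) :
    EqNbhds 1 (Y := fun _ : Fin 3 => F) (quadGraph κ h0) := by
  intro x
  have key : ∀ y : Fin 3 → F, (List.ofFn fun i : Fin 3 => Multiplicative.ofAdd
      ((![(x 0 - y i) ^ 2, -(x 1 - y i) ^ 2, (x 2 - y i) ^ 2] i))).prod =
        Multiplicative.ofAdd (Q (x - y)) := by
    intro y
    rw [List.ofFn_succ, List.ofFn_succ, List.ofFn_succ, List.ofFn_zero]
    rw [List.prod_cons, List.prod_cons, List.prod_cons, List.prod_nil, mul_one, ← ofAdd_add,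
      ← ofAdd_add]
    congr 1
    unfold Q
    simp only [Pi.sub_apply]
    show (x 0 - y 0) ^ 2 + (-(x 1 - y 1) ^ 2 + (x 2 - y 2) ^ 2) = _
    ring
  have hN : (quadGraph κ h0).neighborSet x = {y : Fin 3 → F | (List.ofFn fun i : Fin 3 =>
      Multiplicative.ofAdd ((![(x 0 - y i) ^ 2, -(x 1 - y i) ^ 2, (x 2 - y i) ^ 2] i))).prod =
        Multiplicative.ofAdd κ} := by
    ext y
    show Q (x - y) = κ ↔ (List.ofFn fun i : Fin 3 => Multiplicative.ofAdd
      ((![(x 0 - y i) ^ 2, -(x 1 - y i) ^ 2, (x 2 - y i) ^ 2] i))).prod = Multiplicative.ofAdd κ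
    rw [key y]
    exact (Multiplicative.ofAdd.injective.eq_iff).symm
  refine ⟨(quadGraph κ h0).neighborSet x, ⟨Multiplicative F, inferInstance, fun i (a : F) =>
    Multiplicative.ofAdd ((![(x 0 - a) ^ 2, -(x 1 - a) ^ 2, (x 2 - a) ^ 2] i)),
    Multiplicative.ofAdd κ, hN⟩, fun y hy _ => hy, by rw [one_mul]⟩

/-- For every odd prime `p` there is a graph without `K_{3,3}` on the vertices `F_p^3`, with
neighbourhoods given by separated equations, and with at least `n^{5/3} / 3` edges, `n = p^3`. -/
theorem sharp (p : ℕ) [Fact p.Prime] (hp : p ≠ 2) :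
    ∃ G : SimpleGraph (Fin 3 → ZMod p), EqNbhds 1 (Y := fun _ : Fin 3 => ZMod p) G ∧
      (completeBipartiteGraph (Fin 3) (Fin 3)).Free G ∧
      (1 / 3 : ℝ) * (Nat.card (Fin 3 → ZMod p) : ℝ) ^ (5 / 3 : ℝ) ≤ Nat.card G.edgeSet := by
  have hp3 : 3 ≤ p := by
    have := (Fact.out : p.Prime).two_le
    omega
  have hchar : ringChar (ZMod p) ≠ 2 := by
    rw [ZMod.ringChar_zmod_n]; exact hp
  obtain ⟨κ, hκ⟩ := FiniteField.exists_nonsquare hchar
  have h0 : κ ≠ 0 := by
    rintro rfl
    exact hκ ⟨0, by simp⟩
  have h2 : (2 : ZMod p) ≠ 0 := Ring.two_ne_zero hchar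
  refine ⟨quadGraph κ h0, quad_eq κ h0, quad_free hκ h0 h2, ?_⟩
  have h := quad_edges κ h0 h2
  rw [ZMod.card] at h
  have hcard : (Nat.card (Fin 3 → ZMod p) : ℝ) = (p : ℝ) ^ (3 : ℕ) := by
    rw [Nat.card_eq_fintype_card, Fintype.card_fun, Fintype.card_fin, ZMod.card]
    push_cast; rfl
  rw [hcard, ← Real.rpow_natCast, ← Real.rpow_mul (by positivity)]
  have e5 : ((3 : ℕ) : ℝ) * (5 / 3) = ((5 : ℕ) : ℝ) := by norm_num
  rw [e5, Real.rpow_natCast]
  have h' : (p : ℝ) ^ 4 * (p - 1) ≤ 2 * Nat.card (quadGraph κ h0).edgeSet := by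
    have h1 : ((p - 1 : ℕ) : ℝ) = (p : ℝ) - 1 := by
      rw [Nat.cast_sub (by omega)]; simp
    rw [← h1]
    exact_mod_cast h
  have hp3' : (3 : ℝ) ≤ p := by exact_mod_cast hp3
  have hp4 : (0 : ℝ) ≤ (p : ℝ) ^ 4 := by positivity
  nlinarith [mul_nonneg hp4 (by linarith : (0 : ℝ) ≤ (p : ℝ) - 3)]

end Pool.Agent.T9h84.SE
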