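import Pool.Agent.T9h84.SE.Bip

set_option autoImplicit false

open Finset Function

namespace Pool.Agent.T9h84.SE

variable {t : ℕ}

theorem c0_pos (ℓ : Fin t → ℕ) (hℓ : ∀ i, 1 ≤ ℓ i) : 0 < c0 t ℓ := by
  apply Finset.prod_pos
  intro i _
  have ht : (0 : ℝ) < t := by
    have : 0 < t := lt_of_le_of_lt (Nat.zero_le _) i.isLt
    exact_mod_cast this
  have h1 : (0 : ℝ) < ℓ i := by exact_mod_cast hℓ i
  positivity

open Classical in
/-- The Kővári–Sós–Turán theorem for separable neighbourhoods, bipartite form. -/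
theorem bip (ℓ : Fin t → ℕ) (hℓ : ∀ i, 1 ≤ ℓ i) : ∃ C : ℝ, 0 < C ∧
    ∀ (Y : Fin t → Type) [∀ i, Fintype (Y i)] (X : Type) [Fintype X]
      (T : X → Finset (∀ i, Y i)) (u : ℕ),
      (∀ x, Separable (T x : Set (∀ i, Y i))) →
      (∀ A : ∀ i, Finset (Y i), (∀ i, (A i).card = ℓ i) →
        (univ.filter fun x => Fintype.piFinset A ⊆ T x).card ≤ u) →
      ∑ x, ((T x).card : ℝ) ≤ C *
        ((u : ℝ) ^ (1 / ((∑ i, (ℓ i - 1) : ℕ) + 1 : ℝ)) *
          (Fintype.card X : ℝ) ^ (1 - 1 / ((∑ i, (ℓ i - 1) : ℕ) + 1 : ℝ)) *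
          ((∏ i, Fintype.card (Y i) : ℕ) : ℝ) +
        Fintype.card X * ∑ i, (Nb Y i : ℝ)) := by
  set k := ∑ i, (ℓ i - 1) with hk
  set Λ : ℝ := 1 + ∑ i, (ℓ i : ℝ) with hΛ
  have hΛ1 : 1 ≤ Λ := by
    have : 0 ≤ ∑ i, (ℓ i : ℝ) := Finset.sum_nonneg fun i _ => by positivity
    linarith
  have hΛi : ∀ i, (ℓ i : ℝ) ≤ Λ := by
    intro i
    have : (ℓ i : ℝ) ≤ ∑ i, (ℓ i : ℝ) :=
      Finset.single_le_sum (f := fun i => (ℓ i : ℝ)) (fun j _ => by positivity) (Finset.mem_univ i)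
    linarith
  have hc0 := c0_pos ℓ hℓ
  set C : ℝ := 16 * t * Λ + 2 * (4 * c0 t ℓ + 1) with hC
  have hC0 : 0 < C := by positivity
  refine ⟨C, hC0, ?_⟩
  intro Y _ X _ T u hT hu
  obtain ⟨e, he⟩ : ∃ e : ℝ, e = ∑ x, ((T x).card : ℝ) := ⟨_, rfl⟩
  obtain ⟨N, hN⟩ : ∃ N : ℝ, N = ((∏ i, Fintype.card (Y i) : ℕ) : ℝ) := ⟨_, rfl⟩
  rw [← he, ← hN]
  have hN0 : 0 ≤ N := by rw [hN]; positivity
  have hk1 : (0 : ℝ) < k + 1 := by positivity
  by_cases hY : ∃ i, IsEmpty (Y i)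
  · -- no tuples
    obtain ⟨i, hi⟩ := hY
    have h0 : ∀ x, (T x).card = 0 := by
      intro x
      rw [Finset.card_eq_zero]
      apply Finset.eq_empty_of_forall_notMem
      intro y _
      exact hi.elim (y i)
    have h1 : e = 0 := by
      rw [he]
      apply Finset.sum_eq_zero
      intro x _
      rw [h0 x]; simp
    rw [h1]
    positivity
  push Not at hY
  have hY' : ∀ i, Nonempty (Y i) := hY
  have hNb : ∀ i, 0 < Nb Y i := by
    intro i
    apply Finset.prod_pos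
    intro j _
    exact Fintype.card_pos
  rcases Nat.eq_zero_or_pos (Fintype.card X) with hX | hX
  · have h1 : e = 0 := by
      have : IsEmpty X := Fintype.card_eq_zero_iff.mp hX
      rw [he]
      exact Fintype.sum_empty _
    rw [h1]; positivity
  have hX' : (0 : ℝ) < Fintype.card X := by exact_mod_cast hX
  obtain ⟨D, hD⟩ : ∃ D : ℝ, D = e / (2 * Fintype.card X) := ⟨_, rfl⟩
  have he0 : 0 ≤ e := by rw [he]; exact Finset.sum_nonneg fun x _ => by positivity
  have hD0 : 0 ≤ D := by rw [hD]; positivity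
  have hDe : 2 * (Fintype.card X * D) = e := by rw [hD]; field_simp
  by_cases hbig : ∀ i, 8 * t * ℓ i * Nb Y i ≤ D
  · have h1 := core ℓ hℓ T u hT hu hNb D (by rw [hDe, he]) hbig hD0
    rw [← he, ← hk, ← hN] at h1
    have h2 : e ^ (k + 1) ≤ (2 * (4 * c0 t ℓ + 1)) ^ (k + 1) *
        (u * (Fintype.card X : ℝ) ^ k * N ^ (k + 1)) := by
      have h3 : e * D ^ k * (2 * Fintype.card X) ^ k = e ^ (k + 1) := by
        rw [hD, div_pow]; field_simp; ring
      have h4 : e ^ (k + 1) ≤ 4 * u * c0 t ℓ * N ^ (k + 1) * (2 * Fintype.card X) ^ k := by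
        rw [← h3]
        exact mul_le_mul_of_nonneg_right h1 (by positivity)
      calc e ^ (k + 1) ≤ 4 * u * c0 t ℓ * N ^ (k + 1) * (2 * Fintype.card X) ^ k := h4
        _ = (4 * c0 t ℓ * 2 ^ k) * (u * (Fintype.card X : ℝ) ^ k * N ^ (k + 1)) := by
            rw [mul_pow]; ring
        _ ≤ _ := by
            apply mul_le_mul_of_nonneg_right _ (by positivity)
            calc 4 * c0 t ℓ * 2 ^ k ≤ (4 * c0 t ℓ + 1) ^ (k + 1) * 2 ^ (k + 1) := by
                  have h5 : 4 * c0 t ℓ ≤ (4 * c0 t ℓ + 1) ^ (k + 1) := by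
                    calc 4 * c0 t ℓ ≤ 4 * c0 t ℓ + 1 := by linarith
                      _ ≤ (4 * c0 t ℓ + 1) ^ (k + 1) :=
                        le_self_pow₀ (by linarith) (by omega)
                  have h6 : (2 : ℝ) ^ k ≤ 2 ^ (k + 1) := pow_le_pow_right₀ (by norm_num) (by omega)
                  exact mul_le_mul h5 h6 (by positivity) (by positivity)
              _ = _ := by rw [← mul_pow]; ring
    have h3 : e ≤ 2 * (4 * c0 t ℓ + 1) * ((u : ℝ) ^ (1 / ((k : ℕ) + 1 : ℝ)) *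
        (Fintype.card X : ℝ) ^ (1 - 1 / ((k : ℕ) + 1 : ℝ)) * N) := by
      have h4 : (e ^ (k + 1)) ^ (1 / ((k : ℝ) + 1)) ≤
          ((2 * (4 * c0 t ℓ + 1)) ^ (k + 1) *
        (u * (Fintype.card X : ℝ) ^ k * N ^ (k + 1))) ^ (1 / ((k : ℝ) + 1)) :=
        Real.rpow_le_rpow (by positivity) h2 (by positivity)
      have h5 : ∀ a : ℝ, 0 ≤ a → (a ^ (k + 1)) ^ (1 / ((k : ℝ) + 1)) = a := by
        intro a ha
        rw [← Real.rpow_natCast, ← Real.rpow_mul ha]
        push_cast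
        rw [mul_one_div_cancel hk1.ne', Real.rpow_one]
      rw [h5 e he0, Real.mul_rpow (by positivity) (by positivity), h5 _ (by positivity),
        Real.mul_rpow (by positivity) (by positivity), h5 N (by positivity),
        Real.mul_rpow (by positivity) (by positivity)] at h4
      have h6 : ((Fintype.card X : ℝ) ^ k) ^ (1 / ((k : ℝ) + 1)) =
          (Fintype.card X : ℝ) ^ (1 - 1 / ((k : ℝ) + 1)) := by
        rw [← Real.rpow_natCast, ← Real.rpow_mul (by positivity)]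
        congr 1
        field_simp
        ring
      rw [h6] at h4
      exact h4
    have hS : 0 ≤ (Fintype.card X : ℝ) * ∑ i, (Nb Y i : ℝ) := by positivity
    have hR : 0 ≤ ((u : ℝ) ^ (1 / ((k : ℕ) + 1 : ℝ)) *
        (Fintype.card X : ℝ) ^ (1 - 1 / ((k : ℕ) + 1 : ℝ)) * N) := by positivity
    have hC1 : 2 * (4 * c0 t ℓ + 1) ≤ C := by
      have : 0 ≤ 16 * t * Λ := by positivity
      linarith
    calc e ≤ _ := h3
      _ ≤ C * ((u : ℝ) ^ (1 / ((k : ℕ) + 1 : ℝ)) *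
        (Fintype.card X : ℝ) ^ (1 - 1 / ((k : ℕ) + 1 : ℝ)) * N) :=
          mul_le_mul_of_nonneg_right hC1 hR
      _ ≤ _ := mul_le_mul_of_nonneg_left (by linarith) hC0.le
  · push Not at hbig
    obtain ⟨i, hi⟩ := hbig
    have h1 : e = D * (2 * Fintype.card X) := by rw [hD]; field_simp
    have h2 : (Nb Y i : ℝ) ≤ ∑ i, (Nb Y i : ℝ) :=
      Finset.single_le_sum (f := fun i => (Nb Y i : ℝ)) (fun j _ => by positivity)
        (Finset.mem_univ i)
    have hR : 0 ≤ ((u : ℝ) ^ (1 / ((k : ℕ) + 1 : ℝ)) *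
        (Fintype.card X : ℝ) ^ (1 - 1 / ((k : ℕ) + 1 : ℝ)) * N) := by positivity
    have hC1 : 16 * t * Λ ≤ C := by
      have : 0 ≤ 2 * (4 * c0 t ℓ + 1) := by positivity
      linarith
    calc e ≤ (8 * t * ℓ i * Nb Y i) * (2 * Fintype.card X) := by
          rw [h1]; exact mul_le_mul_of_nonneg_right hi.le (by positivity)
      _ = 16 * t * ℓ i * (Fintype.card X * Nb Y i) := by ring
      _ ≤ 16 * t * Λ * (Fintype.card X * ∑ i, (Nb Y i : ℝ)) := by
          have := hΛi i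
          gcongr
      _ ≤ C * (Fintype.card X * ∑ i, (Nb Y i : ℝ)) :=
          mul_le_mul_of_nonneg_right hC1 (by positivity)
      _ ≤ _ := mul_le_mul_of_nonneg_left (by linarith) hC0.le

end Pool.Agent.T9h84.SE
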