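import Pool.Agent.T9h84.SE.Graph

set_option autoImplicit false

open Finset Function

namespace Pool.Agent.T9h84.SE

theorem separable_sum {t : ℕ} {Y : Fin t → Type} {A : Type} [AddCommGroup A] (f : ∀ i, Y i → A)
    (c : A) : Separable {y : ∀ i, Y i | ∑ i, f i (y i) = c} := by
  classical
  intro i a b y z h1 h2 h3
  have key : ∀ (w : ∀ i, Y i) (e : Y i),
      ∑ j, f j (update w i e j) = f i e + ∑ j ∈ univ.erase i, f j (w j) := by
    intro w e
    rw [← Finset.add_sum_erase _ _ (Finset.mem_univ i)]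
    congr 1
    · rw [update_self]
    · apply Finset.sum_congr rfl
      intro j hj
      rw [update_of_ne (Finset.ne_of_mem_erase hj)]
  have h1' : ∑ j, f j (update y i a j) = c := h1
  have h2' : ∑ j, f j (update y i b j) = c := h2
  have h3' : ∑ j, f j (update z i a j) = c := h3
  show ∑ j, f j (update z i b j) = c
  rw [key] at h1' h2' h3' ⊢
  have : f i a = f i b := add_right_cancel (h1'.trans h2'.symm)
  rw [← this]
  exact h3'

section
variable {F : Type} [Field F]

/-- the quadratic form -/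
def Q (z : Fin 3 → F) : F := z 0 ^ 2 - z 1 ^ 2 + z 2 ^ 2

theorem cross_dep (v v' w w' : Fin 3 → F)
    (h11 : v 0 * w 0 + v 1 * w 1 + v 2 * w 2 = 0) (h12 : v 0 * w' 0 + v 1 * w' 1 + v 2 * w' 2 = 0)
    (h21 : v' 0 * w 0 + v' 1 * w 1 + v' 2 * w 2 = 0)
    (h22 : v' 0 * w' 0 + v' 1 * w' 1 + v' 2 * w' 2 = 0) :
    (∀ i j, v i * v' j = v j * v' i) ∨ (∀ i j, w i * w' j = w j * w' i) := by
  obtain ⟨c, hc⟩ : ∃ c : Fin 3 → F, c = ![w 1 * w' 2 - w 2 * w' 1, w 2 * w' 0 - w 0 * w' 2,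
      w 0 * w' 1 - w 1 * w' 0] := ⟨_, rfl⟩
  have c0 : c 0 = w 1 * w' 2 - w 2 * w' 1 := by rw [hc]; rfl
  have c1 : c 1 = w 2 * w' 0 - w 0 * w' 2 := by rw [hc]; rfl
  have c2 : c 2 = w 0 * w' 1 - w 1 * w' 0 := by rw [hc]; rfl
  by_cases hz : c = 0
  · right
    have e0 : w 1 * w' 2 - w 2 * w' 1 = 0 := by rw [← c0, hz]; rfl
    have e1 : w 2 * w' 0 - w 0 * w' 2 = 0 := by rw [← c1, hz]; rfl
    have e2 : w 0 * w' 1 - w 1 * w' 0 = 0 := by rw [← c2, hz]; rfl
    intro i j
    fin_cases i <;> fin_cases j <;> simp only [Fin.zero_eta, Fin.mk_one, Fin.reduceFinMk]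
    · linear_combination e2
    · linear_combination -e1
    · linear_combination -e2
    · linear_combination e0
    · linear_combination e1
    · linear_combination -e0
  · left
    have key : ∀ u : Fin 3 → F, u 0 * w 0 + u 1 * w 1 + u 2 * w 2 = 0 →
        u 0 * w' 0 + u 1 * w' 1 + u 2 * w' 2 = 0 → ∀ i j, c i * u j = c j * u i := by
      intro u h h' i j
      fin_cases i <;> fin_cases j <;> simp only [Fin.zero_eta, Fin.mk_one, Fin.reduceFinMk]
      · rw [c0, c1]; linear_combination w' 2 * h - w 2 * h'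
      · rw [c0, c2]; linear_combination (- w' 1) * h + w 1 * h'
      · rw [c0, c1]; linear_combination (- w' 2) * h + w 2 * h'
      · rw [c1, c2]; linear_combination w' 0 * h - w 0 * h'
      · rw [c0, c2]; linear_combination w' 1 * h - w 1 * h'
      · rw [c1, c2]; linear_combination (- w' 0) * h + w 0 * h'
    obtain ⟨k, hk⟩ : ∃ k, c k ≠ 0 := by
      by_contra hcon
      push Not at hcon
      exact hz (funext hcon)
    intro i j
    have a1 := key v h11 h12 i k
    have a2 := key v h11 h12 j k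
    have b1 := key v' h21 h22 i k
    have b2 := key v' h21 h22 j k
    have h9 : c k ^ 2 * (v i * v' j) = c k ^ 2 * (v j * v' i) := by
      calc c k ^ 2 * (v i * v' j) = (c k * v i) * (c k * v' j) := by ring
        _ = (c i * v k) * (c j * v' k) := by rw [a1, b2]
        _ = (c j * v k) * (c i * v' k) := by ring
        _ = (c k * v j) * (c k * v' i) := by rw [a2, b1]
        _ = _ := by ring
    exact mul_left_cancel₀ (pow_ne_zero 2 hk) h9

theorem no_line {κ : F} (hκ : ¬ IsSquare κ) (z v : Fin 3 → F) (hz : Q z = κ) (hv : Q v = 0)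
    (hzv : z 0 * v 0 - z 1 * v 1 + z 2 * v 2 = 0) : v = 0 := by
  unfold Q at hz hv
  have h2 : v 2 = 0 := by
    by_contra hne
    apply hκ
    refine ⟨(z 0 * v 1 - z 1 * v 0) / v 2, ?_⟩
    rw [div_mul_div_comm, eq_div_iff (mul_ne_zero hne hne), ← hz]
    linear_combination (z 0 * v 0 - z 1 * v 1 - z 2 * v 2) * (-1) * hzv + (z 0 ^ 2 - z 1 ^ 2) * hv
  rw [h2] at hv hzv
  by_cases h0 : v 0 = 0
  · have h1 : v 1 = 0 := by
      rw [h0] at hv
      have : v 1 ^ 2 = 0 := by linear_combination - hv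
      exact pow_eq_zero_iff (two_ne_zero) |>.mp this
    funext i
    fin_cases i
    · exact h0
    · exact h1
    · exact h2
  · exfalso
    apply hκ
    refine ⟨z 2, ?_⟩
    have h5 : v 0 ^ 2 * (z 0 ^ 2 - z 1 ^ 2) = 0 := by
      linear_combination (z 0 * v 0 + z 1 * v 1) * hzv - z 1 ^ 2 * hv
    have h6 : z 0 ^ 2 - z 1 ^ 2 = 0 := by
      rcases mul_eq_zero.mp h5 with h | h
      · exact absurd (pow_eq_zero_iff (two_ne_zero) |>.mp h) h0
      · exact h
    rw [← hz]
    linear_combination h6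

theorem three_points {κ : F} (hκ : ¬ IsSquare κ) (h2 : (2 : F) ≠ 0) (z v v' : Fin 3 → F)
    (hz : Q z = κ) (h1 : Q (z + v) = κ) (h1' : Q (z + v') = κ) (hv : v ≠ 0) (hv' : v' ≠ 0)
    (hne : v ≠ v') (hdep : ∀ i j, v i * v' j = v j * v' i) : False := by
  obtain ⟨k, hk⟩ : ∃ k, v k ≠ 0 := by
    by_contra hcon
    push Not at hcon
    exact hv (funext hcon)
  obtain ⟨l, hl⟩ : ∃ l, l = v' k / v k := ⟨_, rfl⟩
  have hv'v : ∀ i, v' i = l * v i := by
    intro i
    rw [hl]
    field_simp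
    linear_combination hdep k i
  have hl0 : l ≠ 0 := by
    intro h
    apply hv'
    funext i
    rw [hv'v i, h, zero_mul]; rfl
  have hl1 : l ≠ 1 := by
    intro h
    apply hne
    funext i
    rw [hv'v i, h, one_mul]
  obtain ⟨B, hB⟩ : ∃ B, B = z 0 * v 0 - z 1 * v 1 + z 2 * v 2 := ⟨_, rfl⟩
  have e1 : 2 * B + Q v = 0 := by
    unfold Q at *
    simp only [Pi.add_apply] at h1
    rw [hB]
    linear_combination h1 - hz
  have e2 : l * (2 * B + l * Q v) = 0 := by
    unfold Q at *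
    simp only [Pi.add_apply, hv'v] at h1'
    rw [hB]
    linear_combination h1' - hz
  have e3 : 2 * B + l * Q v = 0 := by
    rcases mul_eq_zero.mp e2 with h | h
    · exact absurd h hl0
    · exact h
  have e4 : Q v = 0 := by
    have : (l - 1) * Q v = 0 := by linear_combination e3 - e1
    rcases mul_eq_zero.mp this with h | h
    · exact absurd (sub_eq_zero.mp h) hl1
    · exact h
  have e5 : B = 0 := by
    have : 2 * B = 0 := by rw [e4] at e1; linear_combination e1
    rcases mul_eq_zero.mp this with h | h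
    · exact absurd h h2
    · exact h
  exact hv (no_line hκ z v hz e4 (by rw [← hB, e5]))

/-- The graph `(x0 - y0)^2 - (x1 - y1)^2 + (x2 - y2)^2 = κ` on the vertices `F^3`. -/
def quadGraph (κ : F) (hκ : κ ≠ 0) : SimpleGraph (Fin 3 → F) where
  Adj x y := Q (x - y) = κ
  symm := ⟨by
    intro x y h
    rw [← h]
    unfold Q
    simp only [Pi.sub_apply]
    ring⟩
  loopless := ⟨by
    intro x h
    apply hκ
    rw [← h]
    unfold Q
    simp⟩

theorem quad_free {κ : F} (hκ : ¬ IsSquare κ) (h0 : κ ≠ 0) (h2 : (2 : F) ≠ 0) :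
    (completeBipartiteGraph (Fin 3) (Fin 3)).Free (quadGraph κ h0) := by
  rintro ⟨φ⟩
  obtain ⟨x, hx⟩ : ∃ x : Fin 3 → Fin 3 → F, ∀ i, x i = φ (Sum.inl i) := ⟨_, fun _ => rfl⟩
  obtain ⟨y, hy⟩ : ∃ y : Fin 3 → Fin 3 → F, ∀ i, y i = φ (Sum.inr i) := ⟨_, fun _ => rfl⟩
  have hxi : ∀ i j, i ≠ j → x i ≠ x j := by
    intro i j hij h
    rw [hx, hx] at h
    exact hij (Sum.inl_injective (φ.injective h))
  have hyi : ∀ i j, i ≠ j → y i ≠ y j := by
    intro i j hij h
    rw [hy, hy] at h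
    exact hij (Sum.inr_injective (φ.injective h))
  have hadj : ∀ i j, Q (x i - y j) = κ := by
    intro i j
    rw [hx, hy]
    have h : (completeBipartiteGraph (Fin 3) (Fin 3)).Adj (Sum.inl i) (Sum.inr j) := by simp
    exact φ.toHom.map_adj h
  have hB : ∀ i j, (x i - x 0) 0 * (y 0 - y j) 0 + (x i - x 0) 1 * (-(y 0 - y j) 1) +
      (x i - x 0) 2 * (y 0 - y j) 2 = 0 := by
    intro i j
    have a1 := hadj i j
    have a2 := hadj i 0
    have a3 := hadj 0 j
    have a4 := hadj 0 0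
    unfold Q at a1 a2 a3 a4
    simp only [Pi.sub_apply] at a1 a2 a3 a4 ⊢
    have : (2 : F) * ((x i 0 - x 0 0) * (y 0 0 - y j 0) + (x i 1 - x 0 1) * (-(y 0 1 - y j 1)) +
      (x i 2 - x 0 2) * (y 0 2 - y j 2)) = 0 := by
      linear_combination a1 - a2 - a3 + a4
    rcases mul_eq_zero.mp this with h | h
    · exact absurd h h2
    · exact h
  obtain ⟨w, hw⟩ : ∃ w : Fin 3 → Fin 3 → F, ∀ j, w j = ![(y 0 - y j) 0, -(y 0 - y j) 1,
      (y 0 - y j) 2] := ⟨_, fun _ => rfl⟩
  have hw0 : ∀ j, w j 0 = (y 0 - y j) 0 := fun j => by rw [hw]; rfl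
  have hw1 : ∀ j, w j 1 = -(y 0 - y j) 1 := fun j => by rw [hw]; rfl
  have hw2 : ∀ j, w j 2 = (y 0 - y j) 2 := fun j => by rw [hw]; rfl
  rcases cross_dep (x 1 - x 0) (x 2 - x 0) (w 1) (w 2)
    (by rw [hw0, hw1, hw2]; exact hB 1 1) (by rw [hw0, hw1, hw2]; exact hB 1 2)
    (by rw [hw0, hw1, hw2]; exact hB 2 1) (by rw [hw0, hw1, hw2]; exact hB 2 2) with h | h
  · refine three_points hκ h2 (x 0 - y 0) (x 1 - x 0) (x 2 - x 0) (hadj 0 0) ?_ ?_
      (sub_ne_zero.mpr (hxi 1 0 (by decide))) (sub_ne_zero.mpr (hxi 2 0 (by decide)))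
      (fun h => hxi 1 2 (by decide) (sub_left_injective h)) h
    · rw [show x 0 - y 0 + (x 1 - x 0) = x 1 - y 0 by abel]; exact hadj 1 0
    · rw [show x 0 - y 0 + (x 2 - x 0) = x 2 - y 0 by abel]; exact hadj 2 0
  · refine three_points hκ h2 (x 0 - y 0) (y 0 - y 1) (y 0 - y 2) (hadj 0 0) ?_ ?_
      (sub_ne_zero.mpr (hyi 0 1 (by decide))) (sub_ne_zero.mpr (hyi 0 2 (by decide)))
      (fun h => hyi 1 2 (by decide) (sub_right_injective h)) ?_
    · rw [show x 0 - y 0 + (y 0 - y 1) = x 0 - y 1 by abel]; exact hadj 0 1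
    · rw [show x 0 - y 0 + (y 0 - y 2) = x 0 - y 2 by abel]; exact hadj 0 2
    · have h01 := h 0 1
      have h02 := h 0 2
      have h12 := h 1 2
      rw [hw0, hw1, hw1, hw0] at h01
      rw [hw0, hw2, hw2, hw0] at h02
      rw [hw1, hw2, hw2, hw1] at h12
      intro i j
      fin_cases i <;> fin_cases j <;> simp only [Fin.zero_eta, Fin.mk_one, Fin.reduceFinMk]
      · linear_combination - h01
      · linear_combination h02
      · linear_combination h01
      · linear_combination - h12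
      · linear_combination - h02
      · linear_combination h12

theorem quad_sep (κ : F) (h0 : κ ≠ 0) :
    SepNbhds 1 (Y := fun _ : Fin 3 => F) (quadGraph κ h0) := by
  intro x
  refine ⟨{y : Fin 3 → F | ∑ i : Fin 3, (![(x 0 - y 0) ^ 2, -(x 1 - y 1) ^ 2, (x 2 - y 2) ^ 2] i) = κ},
    ?_, ?_, ?_⟩
  · have := separable_sum (Y := fun _ : Fin 3 => F)
      (fun i (a : F) => ![(x 0 - a) ^ 2, -(x 1 - a) ^ 2, (x 2 - a) ^ 2] i) κ
    have h9 : {y : Fin 3 → F | ∑ i : Fin 3,
        (![(x 0 - y 0) ^ 2, -(x 1 - y 1) ^ 2, (x 2 - y 2) ^ 2] i) = κ} = {y : Fin 3 → F | ∑ i : Fin 3,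
        (![(x 0 - y i) ^ 2, -(x 1 - y i) ^ 2, (x 2 - y i) ^ 2] i) = κ} := by
      ext y
      show ∑ i : Fin 3, (![(x 0 - y 0) ^ 2, -(x 1 - y 1) ^ 2, (x 2 - y 2) ^ 2] i) = κ ↔
        ∑ i : Fin 3, (![(x 0 - y i) ^ 2, -(x 1 - y i) ^ 2, (x 2 - y i) ^ 2] i) = κ
      rw [Fin.sum_univ_three, Fin.sum_univ_three]
      simp
    rw [h9]
    exact this
  · intro y hy _
    have hy' : ∑ i : Fin 3, (![(x 0 - y 0) ^ 2, -(x 1 - y 1) ^ 2, (x 2 - y 2) ^ 2] i) = κ := hy
    show Q (x - y) = κ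
    rw [← hy']
    unfold Q
    simp [Fin.sum_univ_three]
    ring
  · rw [one_mul]
    apply le_of_eq
    congr 1
    ext y
    show Q (x - y) = κ ↔ ∑ i : Fin 3, (![(x 0 - y 0) ^ 2, -(x 1 - y 1) ^ 2, (x 2 - y 2) ^ 2] i) = κ
    have : Q (x - y) = ∑ i : Fin 3, (![(x 0 - y 0) ^ 2, -(x 1 - y 1) ^ 2, (x 2 - y 2) ^ 2] i) := by
      unfold Q
      simp [Fin.sum_univ_three]
      ring
    rw [this]

end

theorem quad_edges {F : Type} [Field F] [Fintype F] (κ : F) (h0 : κ ≠ 0) (h2 : (2 : F) ≠ 0) :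
    Fintype.card F ^ 4 * (Fintype.card F - 1) ≤ 2 * Nat.card (quadGraph κ h0).edgeSet := by
  classical
  have h3 : (Nat.card (quadGraph κ h0).edgeSet) = (quadGraph κ h0).edgeFinset.card := by
    rw [Nat.card_eq_fintype_card, SimpleGraph.edgeFinset_card]
  rw [h3, ← SimpleGraph.sum_degrees_eq_twice_card_edges]
  have hdeg : ∀ x, Fintype.card F * (Fintype.card F - 1) ≤ (quadGraph κ h0).degree x := by
    intro x
    rw [← SimpleGraph.card_neighborSet_eq_degree]
    have h5 : Fintype.card F * (Fintype.card F - 1) = Fintype.card (F × Fˣ) := by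
      rw [Fintype.card_prod, Fintype.card_units]
    rw [h5]
    let g : F × Fˣ → Fin 3 → F := fun p =>
      ![((p.2 : F) + (κ - p.1 ^ 2) / p.2) / 2, ((p.2 : F) - (κ - p.1 ^ 2) / p.2) / 2, p.1]
    refine Fintype.card_le_of_injective (fun p => ⟨x - g p, ?_⟩) ?_
    · show Q (x - (x - g p)) = κ
      have hp : (p.2 : F) ≠ 0 := p.2.ne_zero
      unfold Q
      simp only [g, Pi.sub_apply, sub_sub_cancel, Matrix.cons_val_zero, Matrix.cons_val_one,
        Matrix.cons_val_two, Matrix.head_cons, Matrix.tail_cons]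
      field_simp
      ring
    · intro p p' hpp
      have h6 : x - g p = x - g p' := congrArg Subtype.val hpp
      have h7 : g p = g p' := sub_right_injective h6
      have a0 := congrFun h7 0
      have a1 := congrFun h7 1
      have a2 := congrFun h7 2
      simp only [g, Matrix.cons_val_zero, Matrix.cons_val_one,
        Matrix.cons_val_two, Matrix.head_cons, Matrix.tail_cons] at a0 a1 a2
      have b : (p.2 : F) = p'.2 := by
        have : (p.2 : F) = ((p.2 : F) + (κ - p.1 ^ 2) / p.2) / 2 +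
            ((p.2 : F) - (κ - p.1 ^ 2) / p.2) / 2 := by field_simp; ring
        rw [this, a0, a1]
        field_simp
        ring
      exact Prod.ext a2 (Units.ext b)
  calc Fintype.card F ^ 4 * (Fintype.card F - 1)
      = Fintype.card (Fin 3 → F) * (Fintype.card F * (Fintype.card F - 1)) := by
        rw [Fintype.card_fun, Fintype.card_fin]; ring
    _ = ∑ x : Fin 3 → F, Fintype.card F * (Fintype.card F - 1) := by
        rw [Finset.sum_const, Finset.card_univ, smul_eq_mul]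
    _ ≤ _ := Finset.sum_le_sum fun x _ => hdeg x

end Pool.Agent.T9h84.SE
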