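import Pool.Agent.T9h84.SE.Group

set_option autoImplicit false

open Finset Function

namespace Pool.Agent.T9h84.SE

/-- the block of a position -/
def blk (m s d : ℕ) (hs : 0 < s) (i : Fin m) : Fin s := ⟨min (i.val / d) (s - 1), by omega⟩

/-- the strings on a block -/
abbrev Blk (α : Type) (m s d : ℕ) (hs : 0 < s) (j : Fin s) : Type :=
  {i : Fin m // blk m s d hs i = j} → α

/-- A string is given by its parts in the blocks. -/
def blkEquiv (α : Type) (m s d : ℕ) (hs : 0 < s) :
    (Fin m → α) ≃ (∀ j, Blk α m s d hs j) where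
  toFun y j i := y i.1
  invFun v i := v (blk m s d hs i) ⟨i, rfl⟩
  left_inv _ := rfl
  right_inv v := by
    funext j i
    obtain ⟨i, rfl⟩ := i
    rfl

theorem blkEquiv_symm_apply (α : Type) (m s d : ℕ) (hs : 0 < s) (v : ∀ j, Blk α m s d hs j)
    (i : Fin m) : (blkEquiv α m s d hs).symm v i = v (blk m s d hs i) ⟨i, rfl⟩ := rfl

/-- the end of the `j`-th block -/
def bend (m s d : ℕ) (j : Fin s) : ℕ := if j.val + 1 = s then m else (j.val + 1) * d

theorem blk_iff (m s d : ℕ) (hs : 0 < s) (hd : 0 < d) (hm : s * d ≤ m) (i : Fin m) (j : Fin s) :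
    (j.val * d ≤ i.val ∧ i.val < bend m s d j) ↔ blk m s d hs i = j := by
  have hi := i.2
  have hj := j.2
  unfold bend blk
  rw [Fin.ext_iff]
  simp only
  by_cases h : j.val + 1 = s
  · rw [if_pos h]
    rw [← Nat.le_div_iff_mul_le hd]
    omega
  · rw [if_neg h, ← Nat.le_div_iff_mul_le hd, ← Nat.div_lt_iff_lt_mul hd]
    omega

theorem bend_le (m s d : ℕ) (hm : s * d ≤ m) (j : Fin s) : bend m s d j ≤ m := by
  unfold bend
  split_ifs with h
  · exact le_rfl
  · exact (Nat.mul_le_mul_right d (by omega)).trans hm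

theorem le_bend (m s d : ℕ) (hm : s * d ≤ m) (j : Fin s) : j.val * d ≤ bend m s d j := by
  unfold bend
  split_ifs with h
  · exact (Nat.mul_le_mul_right d (by omega)).trans hm
  · exact Nat.mul_le_mul_right d (by omega)

theorem key_update (α : Type) (m s d : ℕ) (hs : 0 < s) (hd : 0 < d) (hm : s * d ≤ m) (j : Fin s)
    (w w' : ∀ j, Blk α m s d hs j) (a : Blk α m s d hs j) :
    (blkEquiv α m s d hs).symm (update w j a) = comb (Y := fun _ : Fin m => α) (j.val * d)
      (bend m s d j) ((blkEquiv α m s d hs).symm (update w' j a))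
      ((blkEquiv α m s d hs).symm w) := by
  funext i
  unfold comb
  by_cases h : blk m s d hs i = j
  · rw [if_pos ((blk_iff m s d hs hd hm i j).mpr h)]
    subst h
    rw [blkEquiv_symm_apply, blkEquiv_symm_apply, update_self, update_self]
  · rw [if_neg (fun h' => h ((blk_iff m s d hs hd hm i j).mp h'))]
    rw [blkEquiv_symm_apply, blkEquiv_symm_apply, update_of_ne h]

theorem sep_blocks (α : Type) (m s d : ℕ) (hs : 0 < s) (hd : 0 < d) (hm : s * d ≤ m)
    {S : Set (Fin m → α)} (hS : GroupEquation (Y := fun _ : Fin m => α) S) :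
    Separable ((blkEquiv α m s d hs).symm ⁻¹' S) := by
  intro j a b y z h1 h2 h3
  have h1' : (blkEquiv α m s d hs).symm (update y j a) ∈ S := h1
  have h2' : (blkEquiv α m s d hs).symm (update y j b) ∈ S := h2
  have h3' : (blkEquiv α m s d hs).symm (update z j a) ∈ S := h3
  show (blkEquiv α m s d hs).symm (update z j b) ∈ S
  rw [key_update α m s d hs hd hm j z y b]
  rw [key_update α m s d hs hd hm j y y a] at h1'
  rw [key_update α m s d hs hd hm j y y b] at h2'
  rw [key_update α m s d hs hd hm j z y a] at h3'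
  exact hS.exch _ _ (le_bend m s d hm j) (bend_le m s d hm j) _ _ _ _ h1' h2' h3'

theorem le_card_blk (m s d : ℕ) (hs : 0 < s) (hd : 0 < d) (hm : s * d ≤ m) (j : Fin s) :
    d ≤ Fintype.card {i : Fin m // blk m s d hs i = j} := by
  have hj := j.2
  have hlt : ∀ k : Fin d, j.val * d + k.val < m := by
    intro k
    have h1 := k.2
    have h2 : (j.val + 1) * d ≤ s * d := Nat.mul_le_mul_right d (by omega)
    have h3 : (j.val + 1) * d = j.val * d + d := by ring
    omega
  have h : Fintype.card (Fin d) ≤ Fintype.card {i : Fin m // blk m s d hs i = j} := by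
    refine Fintype.card_le_of_injective (fun k => ⟨⟨j.val * d + k.val, hlt k⟩, ?_⟩) ?_
    · rw [← blk_iff m s d hs hd hm]
      refine ⟨Nat.le_add_right _ _, ?_⟩
      show j.val * d + k.val < bend m s d j
      unfold bend
      have h1 := k.2
      have h3 : (j.val + 1) * d = j.val * d + d := by ring
      split_ifs with h
      · exact hlt k
      · omega
    · intro k k' hk
      have : j.val * d + k.val = j.val * d + k'.val := congrArg (fun x => x.1.1) hk
      exact Fin.ext (by omega)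
  simpa using h

theorem string_bound (s : ℕ) (hs : 0 < s) (ℓ : Fin s → ℕ) (hℓ : ∀ i, 1 ≤ ℓ i) (r : ℕ)
    (hr : r ≤ ∏ i, ℓ i) (k : ℕ) (hk : k = 1 + ∑ i, (ℓ i - 1)) :
    ∃ C : ℝ, 0 < C ∧ ∀ (L m : ℕ) (α : Type) [Fintype α] (G : SimpleGraph (Fin m → α)),
      s ≤ m → m ≤ k * (m / s) → EqNbhds L (Y := fun _ : Fin m => α) G →
      (completeBipartiteGraph (Fin r) (Fin r)).Free G →
      (Nat.card G.edgeSet : ℝ) ≤ C * L * (Nat.card (Fin m → α) : ℝ) ^ (2 - 1 / (k : ℝ)) := by
  classical
  obtain ⟨C, hC, hmain⟩ := graph_bound ℓ hℓ r hr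
  have hkk : 1 + ∑ i, ((ℓ i : ℝ) - 1) = k := by
    rw [hk]
    push_cast
    congr 1
    apply Finset.sum_congr rfl
    intro i _
    rw [Nat.cast_sub (hℓ i)]; simp
  rw [hkk] at hmain
  have hk0 : 1 ≤ k := by omega
  have hk0' : (1 : ℝ) ≤ k := by exact_mod_cast hk0
  refine ⟨C * (1 + s), by positivity, ?_⟩
  intro L m α _ G hsm hmk hG hfree
  obtain ⟨d, hd⟩ : ∃ d, d = m / s := ⟨_, rfl⟩
  rw [← hd] at hmk
  have hd0 : 0 < d := by rw [hd]; exact Nat.div_pos hsm hs
  have hsd : s * d ≤ m := by rw [hd]; exact Nat.mul_div_le m s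
  let e := blkEquiv α m s d hs
  let G' : SimpleGraph (∀ j, Blk α m s d hs j) := G.comap e.symm
  let iso : G' ≃g G := SimpleGraph.Iso.comap e.symm G
  have hG' : SepNbhds L G' := by
    intro u
    obtain ⟨S, h1, h2, h3⟩ := hG (e.symm u)
    refine ⟨e.symm ⁻¹' S, sep_blocks α m s d hs hd0 hsd h1, ?_, ?_⟩
    · intro y hy hyu
      exact h2 (e.symm y) hy (fun h => hyu (e.symm.injective h))
    · have a1 : G'.neighborSet u = e '' (G.neighborSet (e.symm u)) := by
        rw [Equiv.image_eq_preimage_symm]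
        rfl
      have a2 : e.symm ⁻¹' S = e '' S := by rw [Equiv.image_eq_preimage_symm]
      rw [a1, a2, Set.ncard_image_of_injective _ e.injective,
        Set.ncard_image_of_injective _ e.injective]
      exact h3
  have hfree' : (completeBipartiteGraph (Fin r) (Fin r)).Free G' :=
    fun h => hfree (h.trans ⟨iso.toCopy⟩)
  have h := hmain L (fun j => Blk α m s d hs j) G' hG' hfree'
  have hcE : Nat.card G'.edgeSet = Nat.card G.edgeSet := Nat.card_congr iso.mapEdgeSet
  have hcV : Nat.card (∀ j, Blk α m s d hs j) = Nat.card (Fin m → α) := Nat.card_congr e.symm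
  rw [hcE, hcV] at h
  obtain ⟨n, hn⟩ : ∃ n : ℝ, n = (Nat.card (Fin m → α) : ℝ) := ⟨_, rfl⟩
  rw [← hn] at h ⊢
  obtain ⟨q, hq⟩ : ∃ q : ℕ, q = Fintype.card α := ⟨_, rfl⟩
  have hnq : n = (q : ℝ) ^ m := by
    rw [hn, Nat.card_eq_fintype_card, Fintype.card_fun, Fintype.card_fin, hq]
    push_cast; rfl
  have hn0 : 0 ≤ n := by rw [hn]; positivity
  have t2 : ∀ j, n ^ 2 / (Nat.card (Blk α m s d hs j) : ℝ) ≤ n ^ (2 - 1 / (k : ℝ)) := by
    intro j
    rcases Nat.eq_zero_or_pos q with h0 | h0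
    · have : n = 0 := by
        rw [hnq, h0, Nat.cast_zero]
        exact zero_pow (by omega)
      rw [this]
      simp only [ne_eq, OfNat.ofNat_ne_zero, not_false_eq_true, zero_pow, zero_div]
      positivity
    · have hq1 : (1 : ℝ) ≤ q := by exact_mod_cast h0
      have hnpos : 0 < n := by rw [hnq]; positivity
      have hcard : (n : ℝ) ^ (1 / (k : ℝ)) ≤ (Nat.card (Blk α m s d hs j) : ℝ) := by
        have h5 : (Nat.card (Blk α m s d hs j) : ℝ) =
            (q : ℝ) ^ (Fintype.card {i : Fin m // blk m s d hs i = j}) := by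
          rw [Nat.card_eq_fintype_card, Fintype.card_fun, hq]
          push_cast; rfl
        rw [h5, hnq]
        calc ((q : ℝ) ^ m) ^ (1 / (k : ℝ)) = (q : ℝ) ^ ((m : ℝ) * (1 / (k : ℝ))) := by
              rw [← Real.rpow_natCast, ← Real.rpow_mul (by positivity)]
          _ ≤ (q : ℝ) ^ (d : ℝ) := by
              apply Real.rpow_le_rpow_of_exponent_le hq1
              rw [mul_one_div, div_le_iff₀ (by linarith)]
              have : m ≤ d * k := by rw [mul_comm]; exact hmk
              exact_mod_cast this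
          _ = (q : ℝ) ^ d := Real.rpow_natCast _ _
          _ ≤ _ := pow_le_pow_right₀ hq1 (le_card_blk m s d hs hd0 hsd j)
      have hp : (0 : ℝ) < n ^ (1 / (k : ℝ)) := Real.rpow_pos_of_pos hnpos _
      calc n ^ 2 / (Nat.card (Blk α m s d hs j) : ℝ) ≤ n ^ 2 / n ^ (1 / (k : ℝ)) :=
            div_le_div_of_nonneg_left (by positivity) hp hcard
        _ = _ := by rw [Real.rpow_sub hnpos, Real.rpow_two]
  have hCL : 0 ≤ C * L := by positivity
  calc (Nat.card G.edgeSet : ℝ) ≤ C * L * (n ^ (2 - 1 / (k : ℝ)) +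
        ∑ j, n ^ 2 / (Nat.card (Blk α m s d hs j) : ℝ)) := h
    _ ≤ C * L * (n ^ (2 - 1 / (k : ℝ)) + ∑ _j : Fin s, n ^ (2 - 1 / (k : ℝ))) := by
        apply mul_le_mul_of_nonneg_left _ hCL
        exact add_le_add le_rfl (Finset.sum_le_sum fun j _ => t2 j)
    _ = _ := by
        rw [Finset.sum_const, Finset.card_univ, Fintype.card_fin, nsmul_eq_mul]
        ring

/-- two blocks -/
theorem string_two (a b r : ℕ) (hab : 4 ≤ a + b) (ha : 1 ≤ a) (hb : 1 ≤ b) (hr : r ≤ a * b) :
    ∃ C : ℝ, 0 < C ∧ ∀ (L m : ℕ) (α : Type) [Fintype α] (G : SimpleGraph (Fin m → α)),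
      2 ≤ m → EqNbhds L (Y := fun _ : Fin m => α) G →
      (completeBipartiteGraph (Fin r) (Fin r)).Free G →
      (Nat.card G.edgeSet : ℝ) ≤
        C * L * (Nat.card (Fin m → α) : ℝ) ^ (2 - 1 / ((a : ℝ) + b - 1)) := by
  obtain ⟨C, hC, h⟩ := string_bound 2 (by norm_num) ![a, b]
    (by intro i; fin_cases i <;> simp <;> omega) r (by simpa [Fin.prod_univ_two] using hr)
    (a + b - 1) (by simp [Fin.sum_univ_two]; omega)
  refine ⟨C, hC, ?_⟩
  intro L m α _ G hm hG hfree
  have h1 := h L m α G hm (by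
    have : 3 * (m / 2) ≤ (a + b - 1) * (m / 2) := Nat.mul_le_mul_right _ (by omega)
    omega) hG hfree
  have h2 : ((a + b - 1 : ℕ) : ℝ) = (a : ℝ) + b - 1 := by
    rw [Nat.cast_sub (by omega)]; push_cast; ring
  rw [h2] at h1
  exact h1

/-- many blocks -/
theorem string_many (s r : ℕ) (hs : 1 ≤ s) (hr : r ≤ 2 ^ s) :
    ∃ C : ℝ, 0 < C ∧ ∀ (L m : ℕ) (α : Type) [Fintype α] (G : SimpleGraph (Fin m → α)),
      s ^ 2 ≤ m → EqNbhds L (Y := fun _ : Fin m => α) G →
      (completeBipartiteGraph (Fin r) (Fin r)).Free G →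
      (Nat.card G.edgeSet : ℝ) ≤
        C * L * (Nat.card (Fin m → α) : ℝ) ^ (2 - 1 / ((s : ℝ) + 1)) := by
  obtain ⟨C, hC, h⟩ := string_bound s (by omega) (fun _ => 2) (by intro i; norm_num) r
    (by simpa using hr) (s + 1) (by simp; omega)
  refine ⟨C, hC, ?_⟩
  intro L m α _ G hm hG hfree
  have hm' : s ≤ m := le_trans (by nlinarith) hm
  have h1 := h L m α G hm' (by
    have h3 : s ≤ m / s := by
      rw [Nat.le_div_iff_mul_le (by omega)]; rw [sq] at hm; exact hm
    have h4 : m = s * (m / s) + m % s := (Nat.div_add_mod m s).symm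
    have h5 : m % s < s := Nat.mod_lt _ (by omega)
    calc m = s * (m / s) + m % s := h4
      _ ≤ s * (m / s) + m / s := by omega
      _ = (s + 1) * (m / s) := by ring) hG hfree
  push_cast at h1
  exact h1

/-- a saving of a power over the order `n ^ (2 - 1 / r)` -/
theorem string_saving (r : ℕ) (hr : 4 ≤ r) :
    ∃ δ C : ℝ, 0 < δ ∧ ∀ (L m : ℕ) (α : Type) [Fintype α] (G : SimpleGraph (Fin m → α)),
      2 ≤ m → EqNbhds L (Y := fun _ : Fin m => α) G →
      (completeBipartiteGraph (Fin r) (Fin r)).Free G →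
      (Nat.card G.edgeSet : ℝ) ≤ C * L * (Nat.card (Fin m → α) : ℝ) ^ (2 - 1 / (r : ℝ) - δ) := by
  obtain ⟨k, hk⟩ : ∃ k, k = (r + 1) / 2 := ⟨_, rfl⟩
  obtain ⟨C, hC, h⟩ := string_two 2 k r (by omega) (by omega) (by omega) (by omega)
  have hkr : (k : ℝ) + 1 ≤ (r : ℝ) - 1 := by
    have : k + 2 ≤ r := by omega
    have h1 : ((k + 2 : ℕ) : ℝ) ≤ r := by exact_mod_cast this
    push_cast at h1
    linarith
  have hr4 : (4 : ℝ) ≤ r := by exact_mod_cast hr
  have hk0 : (0 : ℝ) ≤ k := by positivity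
  refine ⟨1 / ((r : ℝ) - 1) - 1 / r, C, ?_, ?_⟩
  · rw [sub_pos]
    apply one_div_lt_one_div_of_lt <;> linarith
  · intro L m α _ G hm hG hfree
    have h1 := h L m α G hm hG hfree
    refine h1.trans ?_
    apply mul_le_mul_of_nonneg_left _ (by positivity)
    rcases Nat.eq_zero_or_pos (Nat.card (Fin m → α)) with h0 | h0
    · rw [h0, Nat.cast_zero, Real.zero_rpow]
      · positivity
      · have : 1 / (((2 : ℕ) : ℝ) + k - 1) ≤ 1 := by
          rw [div_le_one (by push_cast; linarith)]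
          push_cast; linarith
        linarith
    · apply Real.rpow_le_rpow_of_exponent_le (by exact_mod_cast h0)
      have : 1 / ((r : ℝ) - 1) ≤ 1 / (((2 : ℕ) : ℝ) + k - 1) := by
        apply one_div_le_one_div_of_le
        · push_cast; linarith
        · push_cast; linarith
      linarith

end Pool.Agent.T9h84.SE
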